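import Pool.Agent.Lib.MP_678664_lc_ReadOnce.CircuitDefs

namespace Pool.Agent.Lib.MP_678664_lc_ReadOnce

open Finset

/-! ### Certificates (proof trees) -/

/-- There is a proof tree for gate `k` whose positive literals are `P` and whose negative literals
are `N`. -/
inductive Cert {ι : Type} [DecidableEq ι] (C : ℕ → Gate ι) : ℕ → Finset ι → Finset ι → Prop
  | pos {k : ℕ} {a : ι} (h : C k = .lit a true) : Cert C k {a} ∅
  | neg {k : ℕ} {a : ι} (h : C k = .lit a false) : Cert C k ∅ {a}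
  | const {k : ℕ} (h : C k = .const true) : Cert C k ∅ ∅
  | and {k i j : ℕ} {P₁ N₁ P₂ N₂ : Finset ι} (h : C k = .and i j) (hi : i < k) (hj : j < k)
      (h₁ : Cert C i P₁ N₁) (h₂ : Cert C j P₂ N₂) : Cert C k (P₁ ∪ P₂) (N₁ ∪ N₂)
  | or {k i : ℕ} {l : List ℕ} {P N : Finset ι} (h : C k = .or l) (hl : i ∈ l) (hi : i < k)
      (hc : Cert C i P N) : Cert C k P N

section general

variable {ι : Type} [DecidableEq ι] {C : ℕ → Gate ι}

theorem eval_of_cert {x : ι → Bool} {k : ℕ} {P N : Finset ι} (h : Cert C k P N) :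
    (∀ a ∈ P, x a = true) → (∀ a ∈ N, x a = false) → eval C x k := by
  induction h with
  | pos h =>
    intro hP _
    rw [eval, h]
    exact hP _ (Finset.mem_singleton_self _)
  | neg h =>
    intro _ hN
    rw [eval, h]
    exact hN _ (Finset.mem_singleton_self _)
  | const h => intro _ _; rw [eval, h]
  | and h hi hj _ _ ih₁ ih₂ =>
    intro hP hN
    rw [eval, h]
    simp only [hi, hj, and_self, dite_true]
    exact ⟨ih₁ (fun a ha => hP a (Finset.mem_union_left _ ha))
      (fun a ha => hN a (Finset.mem_union_left _ ha)),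
      ih₂ (fun a ha => hP a (Finset.mem_union_right _ ha))
      (fun a ha => hN a (Finset.mem_union_right _ ha))⟩
  | or h hl hi _ ih =>
    intro hP hN
    rw [eval, h]
    exact ⟨_, hl, hi, ih hP hN⟩

theorem cert_of_eval {x : ι → Bool} (k : ℕ) : eval C x k →
    ∃ P N, Cert C k P N ∧ (∀ a ∈ P, x a = true) ∧ ∀ a ∈ N, x a = false := by
  induction k using Nat.strong_induction_on with
  | _ k ih =>
    intro hk
    rw [eval] at hk
    rcases h : C k with ⟨a, β⟩ | β | ⟨i, j⟩ | l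
    · rw [h] at hk
      cases β with
      | true => exact ⟨{a}, ∅, .pos h, by simpa using hk, by simp⟩
      | false => exact ⟨∅, {a}, .neg h, by simp, by simpa using hk⟩
    · rw [h] at hk
      have hβ : β = true := hk
      subst hβ
      exact ⟨∅, ∅, .const h, by simp, by simp⟩
    · rw [h] at hk
      by_cases hij : i < k ∧ j < k
      · simp only [hij, and_self, dite_true] at hk
        obtain ⟨P₁, N₁, hc₁, hp₁, hn₁⟩ := ih i hij.1 hk.1
        obtain ⟨P₂, N₂, hc₂, hp₂, hn₂⟩ := ih j hij.2 hk.2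
        refine ⟨P₁ ∪ P₂, N₁ ∪ N₂, .and h hij.1 hij.2 hc₁ hc₂, ?_, ?_⟩
        · intro a ha
          rcases Finset.mem_union.1 ha with h' | h'
          exacts [hp₁ a h', hp₂ a h']
        · intro a ha
          rcases Finset.mem_union.1 ha with h' | h'
          exacts [hn₁ a h', hn₂ a h']
      · simp only [hij, dite_false] at hk
    · rw [h] at hk
      obtain ⟨i, hl, hi, he⟩ := hk
      obtain ⟨P, N, hc, hp, hn⟩ := ih i hi he
      exact ⟨P, N, .or h hl hi hc, hp, hn⟩

theorem occurs_of_cert {k : ℕ} {P N : Finset ι} (h : Cert C k P N) :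
    ∀ a, a ∈ P ∨ a ∈ N → Occurs C a k := by
  induction h with
  | pos h =>
    rintro a (ha | ha)
    · rw [Finset.mem_singleton] at ha
      subst ha
      exact .lit h
    · simp at ha
  | neg h =>
    rintro a (ha | ha)
    · simp at ha
    · rw [Finset.mem_singleton] at ha
      subst ha
      exact .lit h
  | const h => rintro a (ha | ha) <;> simp at ha
  | and h hi hj _ _ ih₁ ih₂ =>
    rintro a (ha | ha)
    · rcases Finset.mem_union.1 ha with h' | h'
      · exact .andl h hi hj (ih₁ a (Or.inl h'))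
      · exact .andr h hi hj (ih₂ a (Or.inl h'))
    · rcases Finset.mem_union.1 ha with h' | h'
      · exact .andl h hi hj (ih₁ a (Or.inr h'))
      · exact .andr h hi hj (ih₂ a (Or.inr h'))
  | or h hl hi _ ih =>
    intro a ha
    exact .or h hl hi (ih a ha)

theorem cert_disjoint {out : ℕ} (hdec : Decomposable C out) {k : ℕ} {P N : Finset ι}
    (h : Cert C k P N) : k ≤ out → ∀ a, a ∈ P → a ∉ N := by
  induction h with
  | pos h => intro _ a _; simp
  | neg h => intro _ a ha; simp at ha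
  | const h => intro _ a _; simp
  | @and k i j P₁ N₁ P₂ N₂ h hi hj h₁ h₂ ih₁ ih₂ =>
    intro hk a ha hn
    rcases Finset.mem_union.1 ha with h' | h' <;> rcases Finset.mem_union.1 hn with h'' | h''
    · exact ih₁ (by omega) a h' h''
    · exact hdec k hk i j h a ⟨occurs_of_cert h₁ a (Or.inl h'), occurs_of_cert h₂ a (Or.inr h'')⟩
    · exact hdec k hk i j h a ⟨occurs_of_cert h₁ a (Or.inr h''), occurs_of_cert h₂ a (Or.inl h')⟩
    · exact ih₂ (by omega) a h' h''
  | or h hl hi _ ih => intro hk; exact ih (by omega)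

theorem eval_self {out : ℕ} (hdec : Decomposable C out) {P N : Finset ι}
    (h : Cert C out P N) : eval C (fun a => decide (a ∈ P)) out := by
  refine eval_of_cert h (fun a ha => by simpa using ha) (fun a ha => ?_)
  have : a ∉ P := fun h' => cert_disjoint hdec h le_rfl a h' ha
  simpa using this

/-- Let `Big` be a property of sets of variables that neither the empty set nor any singleton has.
Every proof tree with the property passes through an `and` gate both of whose arguments do not have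
it. -/
theorem trace (C : ℕ → Gate ι) (out : ℕ) (hdec : Decomposable C out) (Big : Finset ι → Prop)
    (hB0 : ¬ Big ∅) (hB1 : ∀ a, ¬ Big {a}) (k : ℕ) :
    ∀ (P N R S : Finset ι), k ≤ out → Cert C k P N → Big P → (∀ a ∈ R, ¬ Occurs C a k) →
      (∀ P' N', Cert C k P' N' → Cert C out (P' ∪ R) (N' ∪ S)) →
      ∃ g i j P₁ N₁ P₂ N₂ R₀ S₀, g ≤ out ∧ C g = .and i j ∧ Cert C i P₁ N₁ ∧ Cert C j P₂ N₂ ∧
        ¬ Big P₁ ∧ ¬ Big P₂ ∧ Big (P₁ ∪ P₂) ∧ P ∪ R = P₁ ∪ P₂ ∪ R₀ ∧
        (∀ a ∈ R₀, ¬ Occurs C a i ∧ ¬ Occurs C a j) ∧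
        ∀ P₁' N₁' P₂' N₂', Cert C i P₁' N₁' → Cert C j P₂' N₂' →
          Cert C out (P₁' ∪ P₂' ∪ R₀) (N₁' ∪ N₂' ∪ S₀) := by
  induction k using Nat.strong_induction_on with
  | _ k ih =>
    intro P N R S hk hm hP hR henv
    cases hm with
    | pos hg => exact absurd hP (hB1 _)
    | neg hg => exact absurd hP hB0
    | const hg => exact absurd hP hB0
    | @or _ i l _ _ hg hl hi hc =>
      exact ih _ hi P N R S (by omega) hc hP (fun a ha ho => hR a ha (.or hg hl hi ho))
        (fun P' N' h' => henv P' N' (.or hg hl hi h'))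
    | @and _ i j P₁ N₁ P₂ N₂ hg hi hj h₁ h₂ =>
      by_cases hb₁ : Big P₁
      · obtain ⟨g, i', j', Q₁, M₁, Q₂, M₂, R₀, S₀, a1, a2, a3, a4, a5, a6, a7, a8, a9, a10⟩ :=
          ih i hi P₁ N₁ (P₂ ∪ R) (N₂ ∪ S) (by omega) h₁ hb₁ (by
            intro a ha ho
            rcases Finset.mem_union.1 ha with h' | h'
            · exact hdec k hk i j hg a ⟨ho, occurs_of_cert h₂ a (Or.inl h')⟩
            · exact hR a h' (.andl hg hi hj ho)) (by
            intro P' N' h'
            have := henv _ _ (.and hg hi hj h' h₂)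
            rwa [Finset.union_assoc, Finset.union_assoc] at this)
        refine ⟨g, i', j', Q₁, M₁, Q₂, M₂, R₀, S₀, a1, a2, a3, a4, a5, a6, a7, ?_, a9, a10⟩
        rw [← a8, Finset.union_assoc]
      · by_cases hb₂ : Big P₂
        · obtain ⟨g, i', j', Q₁, M₁, Q₂, M₂, R₀, S₀, a1, a2, a3, a4, a5, a6, a7, a8, a9, a10⟩ :=
            ih j hj P₂ N₂ (P₁ ∪ R) (N₁ ∪ S) (by omega) h₂ hb₂ (by
              intro a ha ho
              rcases Finset.mem_union.1 ha with h' | h'
              · exact hdec k hk i j hg a ⟨occurs_of_cert h₁ a (Or.inl h'), ho⟩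
              · exact hR a h' (.andr hg hi hj ho)) (by
              intro P' N' h'
              have := henv _ _ (.and hg hi hj h₁ h')
              have e1 : P' ∪ (P₁ ∪ R) = P₁ ∪ P' ∪ R := by
                rw [← Finset.union_assoc, Finset.union_comm P' P₁]
              have e2 : N' ∪ (N₁ ∪ S) = N₁ ∪ N' ∪ S := by
                rw [← Finset.union_assoc, Finset.union_comm N' N₁]
              rwa [e1, e2])
          refine ⟨g, i', j', Q₁, M₁, Q₂, M₂, R₀, S₀, a1, a2, a3, a4, a5, a6, a7, ?_, a9, a10⟩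
          rw [← a8, ← Finset.union_assoc, Finset.union_comm P₂ P₁]
        · refine ⟨k, i, j, P₁, N₁, P₂, N₂, R, S, hk, hg, h₁, h₂, hb₁, hb₂, hP, rfl, ?_, ?_⟩
          · intro a ha
            exact ⟨fun ho => hR a ha (.andl hg hi hj ho), fun ho => hR a ha (.andr hg hi hj ho)⟩
          · intro P₁' N₁' P₂' N₂' h₁' h₂'
            exact henv _ _ (.and hg hi hj h₁' h₂')

end general

/-! ### Cliques -/

section cliques

variable {n : ℕ}

/-- the edges of the complete graph on `S` -/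
def edges (S : Finset (Fin n)) : Finset (Sym2 (Fin n)) := S.sym2.filter fun e => ¬ e.IsDiag

theorem mem_edges {S : Finset (Fin n)} {u v : Fin n} :
    s(u, v) ∈ edges S ↔ u ∈ S ∧ v ∈ S ∧ u ≠ v := by
  simp [edges, and_assoc]

theorem not_isDiag_of_mem {S : Finset (Fin n)} {e : Sym2 (Fin n)} (h : e ∈ edges S) :
    ¬ e.IsDiag := (Finset.mem_filter.1 h).2

theorem card_edges (S : Finset (Fin n)) : (edges S).card = S.card.choose 2 := by
  rw [← Sym2.card_image_offDiag]
  congr 1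
  ext e
  induction e using Sym2.ind with
  | _ u v =>
    rw [mem_edges]
    simp only [Finset.mem_image, Finset.mem_offDiag, Prod.exists, Function.uncurry_apply_pair]
    constructor
    · rintro ⟨hu, hv, huv⟩
      exact ⟨u, v, ⟨hu, hv, huv⟩, rfl⟩
    · rintro ⟨a, b, ⟨ha, hb, hab⟩, h⟩
      rcases Sym2.eq_iff.1 h with ⟨rfl, rfl⟩ | ⟨rfl, rfl⟩
      · exact ⟨ha, hb, hab⟩
      · exact ⟨hb, ha, Ne.symm hab⟩

theorem clique_iff (P : Finset (Sym2 (Fin n))) (k : ℕ) :
    ¬ (SimpleGraph.fromEdgeSet (P : Set (Sym2 (Fin n)))).CliqueFree k ↔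
      ∃ T : Finset (Fin n), T.card = k ∧ edges T ⊆ P := by
  unfold SimpleGraph.CliqueFree
  push Not
  constructor
  · rintro ⟨T, hT⟩
    refine ⟨T, hT.2, fun e he => ?_⟩
    induction e using Sym2.ind with
    | _ u v =>
      obtain ⟨hu, hv, huv⟩ := mem_edges.1 he
      have := hT.1 (Finset.mem_coe.2 hu) (Finset.mem_coe.2 hv) huv
      rw [SimpleGraph.fromEdgeSet_adj] at this
      exact Finset.mem_coe.1 this.1
  · rintro ⟨T, hT, hsub⟩
    refine ⟨T, ?_, hT⟩
    intro u hu v hv huv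
    rw [SimpleGraph.fromEdgeSet_adj]
    exact ⟨Finset.mem_coe.2 (hsub (mem_edges.2 ⟨Finset.mem_coe.1 hu, Finset.mem_coe.1 hv, huv⟩)),
      huv⟩

theorem accept_iff {C : ℕ → Gate (Sym2 (Fin n))} {out k : ℕ} (hC : DecidesClique C out k)
    (P : Finset (Sym2 (Fin n))) (hP : ∀ e ∈ P, ¬ e.IsDiag) :
    eval C (fun e => decide (e ∈ P)) out ↔ ∃ T : Finset (Fin n), T.card = k ∧ edges T ⊆ P := by
  have h1 := hC (SimpleGraph.fromEdgeSet (P : Set (Sym2 (Fin n))))
  rw [clique_iff] at h1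
  rw [← h1]
  refine iff_of_eq (congrArg (fun x => eval C x out) ?_)
  funext e
  refine (@decide_eq_decide _ _ _ _).2 ?_
  rw [SimpleGraph.edgeSet_fromEdgeSet]
  constructor
  · intro h
    exact ⟨Finset.mem_coe.2 h, fun h' => hP e h (by simpa using h')⟩
  · intro h
    exact Finset.mem_coe.1 h.1

/-- all the edges of the complete graph on `S` at the vertex `v` are in `P` -/
def Priv (S : Finset (Fin n)) (P : Finset (Sym2 (Fin n))) (v : Fin n) : Prop :=
  v ∈ S ∧ ∀ u ∈ S, u ≠ v → s(v, u) ∈ P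

/-- Exchange of the parts `q` and `q'` of two cliques. -/
theorem exchange {k : ℕ} {S S' : Finset (Fin n)} (hS : S.card = k) (hS' : S'.card = k)
    {q r q' r' : Finset (Sym2 (Fin n))} (hq : edges S = q ∪ r) (hq' : edges S' = q' ∪ r')
    (hd : Disjoint q r) (hd' : Disjoint q' r') (hpriv : ¬ ∃ v, Priv S q v)
    {T T' : Finset (Fin n)} (hT : T.card = k) (hT' : T'.card = k)
    (h1 : edges T ⊆ q' ∪ r) (h2 : edges T' ⊆ q ∪ r') : q' ⊆ edges S := by
  have e1 : q.card + r.card = k.choose 2 := by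
    rw [← Finset.card_union_of_disjoint hd, ← hq, card_edges, hS]
  have e2 : q'.card + r'.card = k.choose 2 := by
    rw [← Finset.card_union_of_disjoint hd', ← hq', card_edges, hS']
  have e3 : k.choose 2 ≤ (q' ∪ r).card := by
    rw [← hT, ← card_edges]; exact Finset.card_le_card h1
  have e4 : k.choose 2 ≤ (q ∪ r').card := by
    rw [← hT', ← card_edges]; exact Finset.card_le_card h2
  have e5 := Finset.card_union_le q' r
  have e6 := Finset.card_union_le q r'
  have e7 : edges T = q' ∪ r := by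
    apply Finset.eq_of_subset_of_card_le h1
    rw [card_edges, hT]
    omega
  have hsub : S ⊆ T := by
    intro v hv
    by_contra hvT
    apply hpriv
    refine ⟨v, hv, fun u hu huv => ?_⟩
    have h3 : s(v, u) ∈ q ∪ r := by rw [← hq]; exact mem_edges.2 ⟨hv, hu, Ne.symm huv⟩
    rcases Finset.mem_union.1 h3 with h4 | h4
    · exact h4
    · exfalso
      have h5 : s(v, u) ∈ edges T := by rw [e7]; exact Finset.mem_union_right _ h4
      exact hvT (mem_edges.1 h5).1
  have hST : S = T := Finset.eq_of_subset_of_card_le hsub (by omega)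
  rw [hST, e7]
  exact Finset.subset_union_left

end cliques

section main

variable {n k : ℕ} {C : ℕ → Gate (Sym2 (Fin n))} {out : ℕ}

theorem cert_clique (hC : DecidesClique C out k) (hdec : Decomposable C out)
    {S : Finset (Fin n)} (hS : S.card = k) : ∃ N, Cert C out (edges S) N := by
  have h1 := (accept_iff hC (edges S) (fun e he => not_isDiag_of_mem he)).2
    ⟨S, hS, Finset.Subset.refl _⟩
  obtain ⟨P, N, hc, hp, hn⟩ := cert_of_eval _ h1
  have hsub : P ⊆ edges S := fun A hA => by simpa using hp A hA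
  obtain ⟨T, hT, hTP⟩ := (accept_iff hC P (fun e he => not_isDiag_of_mem (hsub he))).1
    (eval_self hdec hc)
  have h3 : P = edges S := by
    apply Finset.eq_of_subset_of_card_le hsub
    calc (edges S).card = (edges T).card := by rw [card_edges, card_edges, hS, hT]
      _ ≤ P.card := Finset.card_le_card hTP
  exact ⟨N, h3 ▸ hc⟩

theorem lower_bound (hk : 3 ≤ k) (hC : DecidesClique C out k) (hdec : Decomposable C out) :
    n.choose k ≤ numAnd C out := by
  classical
  have htr : ∀ S : {S : Finset (Fin n) // S.card = k},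
      ∃ g i j, ∃ q₁ q₂ r₀ N₁ N₂ S₀ : Finset (Sym2 (Fin n)), g ≤ out ∧ C g = .and i j ∧
        (¬ ∃ v, Priv S.1 q₁ v) ∧ (¬ ∃ v, Priv S.1 q₂ v) ∧ (∃ v, Priv S.1 (q₁ ∪ q₂) v) ∧
        edges S.1 = q₁ ∪ q₂ ∪ r₀ ∧
        (∀ a ∈ r₀, ¬ Occurs C a i ∧ ¬ Occurs C a j) ∧
        Cert C i q₁ N₁ ∧ Cert C j q₂ N₂ ∧
        ∀ q₁' q₂' N₁' N₂', Cert C i q₁' N₁' → Cert C j q₂' N₂' →
          Cert C out (q₁' ∪ q₂' ∪ r₀) (N₁' ∪ N₂' ∪ S₀) := by
    rintro ⟨S, hS⟩
    obtain ⟨N, hN⟩ := cert_clique hC hdec hS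
    have hne : S.Nonempty := by
      rw [← Finset.card_pos]; omega
    -- two further vertices
    have htwo : ∀ v ∈ S, ∃ u w, u ∈ S ∧ w ∈ S ∧ u ≠ v ∧ w ≠ v ∧ u ≠ w := by
      intro v hv
      have h1 : 1 < (S.erase v).card := by rw [Finset.card_erase_of_mem hv]; omega
      obtain ⟨u, hu, w, hw, huw⟩ := Finset.one_lt_card.1 h1
      exact ⟨u, w, Finset.mem_of_mem_erase hu, Finset.mem_of_mem_erase hw,
        Finset.ne_of_mem_erase hu, Finset.ne_of_mem_erase hw, huw⟩
    obtain ⟨g, i, j, q₁, N₁, q₂, N₂, r₀, S₀, a1, a2, a3, a4, a5, a6, a7, a8, a9, a10⟩ :=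
      trace C out hdec (fun P => ∃ v, Priv S P v) (by
        rintro ⟨v, hv, h⟩
        obtain ⟨u, w, hu, hw, huv, hwv, huw⟩ := htwo v hv
        exact absurd (h u hu huv) (Finset.notMem_empty _)) (by
        rintro a ⟨v, hv, h⟩
        obtain ⟨u, w, hu, hw, huv, hwv, huw⟩ := htwo v hv
        have h1 := Finset.mem_singleton.1 (h u hu huv)
        have h2 := Finset.mem_singleton.1 (h w hw hwv)
        rw [← h2] at h1
        exact huw (Sym2.congr_right.1 h1)) out (edges S) N ∅ ∅ le_rfl hN (by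
        obtain ⟨v, hv⟩ := hne
        exact ⟨v, hv, fun u hu huv => mem_edges.2 ⟨hv, hu, Ne.symm huv⟩⟩)
        (fun a ha => absurd ha (Finset.notMem_empty _)) (fun P' N' hq' => by simpa using hq')
    exact ⟨g, i, j, q₁, q₂, r₀, N₁, N₂, S₀, a1, a2, a5, a6, a7, by simpa using a8, a9, a3, a4,
      fun q₁' q₂' N₁' N₂' b1 b2 => a10 q₁' N₁' q₂' N₂' b1 b2⟩
  choose g i j q₁ q₂ r₀ N₁ N₂ S₀ hg1 hg2 hb₁ hb₂ hb₁₂ hsum hocc hm₁ hm₂ henv using htr
  have hd12 : ∀ σ, Disjoint (q₁ σ) (q₂ σ) := by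
    intro σ
    rw [Finset.disjoint_left]
    intro A h1 h2
    exact hdec (g σ) (hg1 σ) _ _ (hg2 σ) A
      ⟨occurs_of_cert (hm₁ σ) A (Or.inl h1), occurs_of_cert (hm₂ σ) A (Or.inl h2)⟩
  have hd10 : ∀ σ, Disjoint (q₁ σ) (r₀ σ) := by
    intro σ
    rw [Finset.disjoint_left]
    intro A h1 h2
    exact (hocc σ A h2).1 (occurs_of_cert (hm₁ σ) A (Or.inl h1))
  have hd20 : ∀ σ, Disjoint (q₂ σ) (r₀ σ) := by
    intro σ
    rw [Finset.disjoint_left]
    intro A h1 h2
    exact (hocc σ A h2).2 (occurs_of_cert (hm₂ σ) A (Or.inl h1))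
  -- the rest of the clique has no private vertex either
  have hb₀ : ∀ σ, ¬ ∃ v, Priv σ.1 (r₀ σ) v := by
    rintro σ ⟨w, hw, hw'⟩
    obtain ⟨v, hv, hv'⟩ := hb₁₂ σ
    have hdd : Disjoint (q₁ σ ∪ q₂ σ) (r₀ σ) :=
      Finset.disjoint_union_left.2 ⟨hd10 σ, hd20 σ⟩
    by_cases hvw : v = w
    · have h1 : 1 < σ.1.card := by have := σ.2; omega
      obtain ⟨u, hu, huv⟩ := Finset.exists_mem_ne h1 v
      have h2 := hv' u hu huv
      have h3 := hw' u hu (by rw [← hvw]; exact huv)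
      rw [← hvw] at h3
      exact Finset.disjoint_left.1 hdd h2 h3
    · have h2 := hv' w hw (Ne.symm hvw)
      have h3 := hw' v hv hvw
      rw [Sym2.eq_swap] at h3
      exact Finset.disjoint_left.1 hdd h2 h3
  -- every certificate is accepted
  have hacc : ∀ P N, Cert C out P N → (∀ e ∈ P, ¬ e.IsDiag) →
      ∃ T : Finset (Fin n), T.card = k ∧ edges T ⊆ P := fun P N hc hP =>
    (accept_iff hC P hP).1 (eval_self hdec hc)
  have hdiag₁ : ∀ σ, ∀ e ∈ q₁ σ, ¬ e.IsDiag := fun σ e he => not_isDiag_of_mem (S := σ.1) (by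
    rw [hsum σ]; exact Finset.mem_union_left _ (Finset.mem_union_left _ he))
  have hdiag₂ : ∀ σ, ∀ e ∈ q₂ σ, ¬ e.IsDiag := fun σ e he => not_isDiag_of_mem (S := σ.1) (by
    rw [hsum σ]; exact Finset.mem_union_left _ (Finset.mem_union_right _ he))
  have hdiag₀ : ∀ σ, ∀ e ∈ r₀ σ, ¬ e.IsDiag := fun σ e he => not_isDiag_of_mem (S := σ.1) (by
    rw [hsum σ]; exact Finset.mem_union_right _ he)
  have hmix : ∀ σ τ ρ, g σ = g τ → g τ = g ρ →
      ∃ T : Finset (Fin n), T.card = k ∧ edges T ⊆ q₁ σ ∪ q₂ τ ∪ r₀ ρ := by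
    intro σ τ ρ h1 h2
    have e1 : i σ = i τ ∧ j σ = j τ := by
      have h3 := hg2 σ
      rw [h1, hg2 τ] at h3
      injection h3 with h4 h5
      exact ⟨h4.symm, h5.symm⟩
    have e2 : i τ = i ρ ∧ j τ = j ρ := by
      have h3 := hg2 τ
      rw [h2, hg2 ρ] at h3
      injection h3 with h4 h5
      exact ⟨h4.symm, h5.symm⟩
    refine hacc _ (N₁ σ ∪ N₂ τ ∪ S₀ ρ) (henv ρ _ _ _ _ ?_ ?_) ?_
    · rw [← e2.1, ← e1.1]; exact hm₁ σ
    · rw [← e2.2]; exact hm₂ τ
    · intro e he
      rcases Finset.mem_union.1 he with he | he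
      · rcases Finset.mem_union.1 he with he | he
        exacts [hdiag₁ σ e he, hdiag₂ τ e he]
      · exact hdiag₀ ρ e he
  -- the gate determines the clique
  have hinj : Function.Injective g := by
    intro σ τ hgg
    have hsub : edges τ.1 ⊆ edges σ.1 := by
      rw [hsum τ]
      refine Finset.union_subset (Finset.union_subset ?_ ?_) ?_
      · obtain ⟨T, hT, h1⟩ := hmix τ σ σ hgg.symm rfl
        obtain ⟨T', hT', h2⟩ := hmix σ τ τ hgg rfl
        refine exchange σ.2 τ.2 (q := q₁ σ) (r := q₂ σ ∪ r₀ σ) (r' := q₂ τ ∪ r₀ τ) ?_ ?_ ?_ ?_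
          (hb₁ σ) hT hT' ?_ ?_
        · rw [hsum σ, Finset.union_assoc]
        · rw [hsum τ, Finset.union_assoc]
        · exact Finset.disjoint_union_right.2 ⟨hd12 σ, hd10 σ⟩
        · exact Finset.disjoint_union_right.2 ⟨hd12 τ, hd10 τ⟩
        · rw [← Finset.union_assoc]; exact h1
        · rw [← Finset.union_assoc]; exact h2
      · obtain ⟨T, hT, h1⟩ := hmix σ τ σ hgg hgg.symm
        obtain ⟨T', hT', h2⟩ := hmix τ σ τ hgg.symm hgg
        refine exchange σ.2 τ.2 (q := q₂ σ) (r := q₁ σ ∪ r₀ σ) (r' := q₁ τ ∪ r₀ τ) ?_ ?_ ?_ ?_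
          (hb₂ σ) hT hT' ?_ ?_
        · rw [hsum σ, ← Finset.union_assoc, Finset.union_comm (q₂ σ)]
        · rw [hsum τ, ← Finset.union_assoc, Finset.union_comm (q₂ τ)]
        · exact Finset.disjoint_union_right.2 ⟨(hd12 σ).symm, hd20 σ⟩
        · exact Finset.disjoint_union_right.2 ⟨(hd12 τ).symm, hd20 τ⟩
        · rw [← Finset.union_assoc, Finset.union_comm (q₂ τ)]; exact h1
        · rw [← Finset.union_assoc, Finset.union_comm (q₂ σ)]; exact h2
      · obtain ⟨T, hT, h1⟩ := hmix σ σ τ rfl hgg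
        obtain ⟨T', hT', h2⟩ := hmix τ τ σ rfl hgg.symm
        refine exchange σ.2 τ.2 (q := r₀ σ) (r := q₁ σ ∪ q₂ σ) (r' := q₁ τ ∪ q₂ τ) ?_ ?_ ?_ ?_
          (hb₀ σ) hT hT' ?_ ?_
        · rw [hsum σ, Finset.union_comm (r₀ σ)]
        · rw [hsum τ, Finset.union_comm (r₀ τ)]
        · exact (Finset.disjoint_union_left.2 ⟨hd10 σ, hd20 σ⟩).symm
        · exact (Finset.disjoint_union_left.2 ⟨hd10 τ, hd20 τ⟩).symm
        · rw [Finset.union_comm (r₀ τ)]; exact h1
        · rw [Finset.union_comm (r₀ σ)]; exact h2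
    -- edges determine the vertices
    have hVsub : τ.1 ⊆ σ.1 := by
      intro v hv
      have h1 : 1 < τ.1.card := by have := τ.2; omega
      obtain ⟨u, hu, huv⟩ := Finset.exists_mem_ne h1 v
      exact (mem_edges.1 (hsub (mem_edges.2 ⟨hv, hu, Ne.symm huv⟩))).1
    exact (Subtype.ext (Finset.eq_of_subset_of_card_le hVsub (by rw [σ.2, τ.2]))).symm
  -- conclusion
  have himg : (univ.image g).card ≤ numAnd C out := by
    unfold numAnd
    rw [← Set.ncard_coe_finset]
    apply Set.ncard_le_ncard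
    · intro b hb
      obtain ⟨σ, _, rfl⟩ := Finset.mem_image.1 (Finset.mem_coe.1 hb)
      exact ⟨hg1 σ, i σ, j σ, hg2 σ⟩
    · exact (Set.finite_le_nat out).subset (fun k hk => hk.1)
  rw [Finset.card_image_of_injective _ hinj, Finset.card_univ, Fintype.card_finset_len,
    Fintype.card_fin] at himg
  exact himg

end main

end Pool.Agent.Lib.MP_678664_lc_ReadOnce
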