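import Mathlib

namespace Pool.Agent.Lib.MP_678664_lc_ReadOnce

open Filter

/-- `n ^ m / B` beats `F * n ^ γ` for large `n` if `γ < m`. -/
theorem eventually_pow (m : ℕ) (γ F B : ℝ) (hγ : γ < m) :
    ∀ᶠ n : ℕ in atTop, F * (n : ℝ) ^ γ * B < (n : ℝ) ^ m := by
  have h1 : Tendsto (fun n : ℕ => (n : ℝ) ^ ((m : ℝ) - γ)) atTop atTop :=
    (tendsto_rpow_atTop (by linarith)).comp tendsto_natCast_atTop_atTop
  filter_upwards [h1.eventually_gt_atTop (F * B), eventually_ge_atTop 1] with n hn hn1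
  have hpos : (0 : ℝ) < n := by exact_mod_cast hn1
  have h2 : (n : ℝ) ^ m = (n : ℝ) ^ ((m : ℝ) - γ) * (n : ℝ) ^ γ := by
    rw [← Real.rpow_add hpos, sub_add_cancel, Real.rpow_natCast]
  rw [h2]
  have h3 : 0 < (n : ℝ) ^ γ := Real.rpow_pos_of_pos hpos _
  nlinarith

theorem eventually_choose (k : ℕ) (γ F : ℝ) (hγ : γ < k) :
    ∀ᶠ n : ℕ in atTop, F * (n : ℝ) ^ γ < (n.choose k : ℝ) := by
  have hB : (0 : ℝ) < 2 ^ k * k.factorial := by positivity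
  filter_upwards [eventually_pow k γ F (2 ^ k * k.factorial) hγ, eventually_ge_atTop (2 * k)] with n hn hn2
  have h1 := Nat.pow_le_choose (α := ℝ) k n
  have h2 : (n : ℝ) ≤ 2 * ((n + 1 - k : ℕ) : ℝ) := by
    have : n ≤ 2 * (n + 1 - k) := by omega
    exact_mod_cast this
  have h3 : (n : ℝ) ^ k ≤ 2 ^ k * ((n + 1 - k : ℕ) : ℝ) ^ k := by
    rw [← mul_pow]
    gcongr
  have h5 : (0 : ℝ) < k.factorial := by positivity
  have h4 : ((n + 1 - k : ℕ) : ℝ) ^ k ≤ (k.factorial : ℝ) * n.choose k := by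
    first
      | exact h1
      | (rw [div_le_iff₀ h5] at h1; linarith)
  have h6 : F * (n : ℝ) ^ γ * (2 ^ k * k.factorial) < (n.choose k : ℝ) * (2 ^ k * k.factorial) := by
    calc _ < (n : ℝ) ^ k := hn
      _ ≤ 2 ^ k * ((n + 1 - k : ℕ) : ℝ) ^ k := h3
      _ ≤ 2 ^ k * ((k.factorial : ℝ) * n.choose k) := by gcongr
      _ = _ := by ring
  exact lt_of_mul_lt_mul_right h6 hB.le

theorem eventually_div (k : ℕ) (hk : 3 ≤ k) (γ F : ℝ) (hγ : γ < (k - 2 : ℕ)) :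
    ∀ᶠ n : ℕ in atTop, F * (n : ℝ) ^ γ < ((((n - 2) / (4 * (k - 2))) ^ (k - 2) : ℕ) : ℝ) := by
  obtain ⟨l, hl⟩ : ∃ l, k - 2 = l + 1 := ⟨k - 3, by omega⟩
  rw [hl] at hγ ⊢
  have hB : (0 : ℝ) < (8 * (l + 1 : ℕ)) ^ (l + 1) := by positivity
  filter_upwards [eventually_pow (l + 1) γ F ((8 * (l + 1 : ℕ)) ^ (l + 1)) hγ, eventually_ge_atTop (4 + 8 * (l + 1))]
    with n hn hn2
  have h2 : n ≤ (8 * (l + 1)) * ((n - 2) / (4 * (l + 1))) := by
    have h3 := Nat.div_add_mod (n - 2) (4 * (l + 1))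
    have h4 := Nat.mod_lt (n - 2) (show 0 < 4 * (l + 1) by omega)
    set d := (n - 2) / (4 * (l + 1)) with hd
    have h5 : n - 2 < 4 * (l + 1) * d + 4 * (l + 1) := by omega
    have h6 : 8 * (l + 1) * d = 2 * (4 * (l + 1) * d) := by ring
    omega
  have h3 : (n : ℝ) ^ (l + 1) ≤ (8 * (l + 1 : ℕ)) ^ (l + 1) *
      ((((n - 2) / (4 * (l + 1))) ^ (l + 1) : ℕ) : ℝ) := by
    push_cast
    rw [← mul_pow]
    have h7 : (n : ℝ) ≤ (8 * ((l : ℝ) + 1)) * (((n - 2) / (4 * (l + 1)) : ℕ) : ℝ) := by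
      exact_mod_cast h2
    gcongr
  have h6 := lt_of_lt_of_le hn h3
  rw [mul_comm ((8 * (l + 1 : ℕ) : ℝ) ^ (l + 1))] at h6
  exact lt_of_mul_lt_mul_right h6 hB.le

/-- If `g(k)/k → 0` then `g k < k / 4` for large `k`. -/
theorem eventually_small (g : ℕ → ℝ) (hg : Tendsto (fun k : ℕ => g k / k) atTop (nhds 0)) :
    ∀ᶠ k : ℕ in atTop, g k < (k : ℝ) / 4 := by
  filter_upwards [hg.eventually (gt_mem_nhds (show (0 : ℝ) < 1 / 4 by norm_num)),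
    eventually_ge_atTop 1] with k hk hk1
  have hpos : (0 : ℝ) < k := by exact_mod_cast hk1
  rw [div_lt_iff₀ hpos] at hk
  linarith

end Pool.Agent.Lib.MP_678664_lc_ReadOnce
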