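import Pool.Agent.Lib.MP_678664_lc_ReadOnce.CircuitDefs
import Pool.Agent.Lib.MP_678664_lc_ReadOnce.CircuitProof
import Pool.Agent.Lib.MP_678664_lc_ReadOnce.Numeric

/-!
# Decomposable Boolean circuits (DNNF) for the k-clique problem

The definitions are in `Pool.Agent.Lib.MP_678664_lc_ReadOnce.CircuitDefs`.
-/

namespace Pool.Agent.Lib.MP_678664_lc_ReadOnce.CircuitResult

open Pool.Agent.Lib.MP_678664_lc_ReadOnce Filter

/-- For `k ≥ 3` every decomposable Boolean circuit in negation normal form (DNNF) that decides
the `k`-clique problem for graphs with `n` vertices has at least `n choose k` `and` gates.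

Hence no family of such circuits has size `f(k) n^{g(k)}` with `g(k)/k → 0`: for every `f` and
every such `g`, for all large `k` and all `n` large in terms of `k`, more than `f(k) n^{g(k)}`
`and` gates are needed. -/
theorem main :
    (∀ n k : ℕ, 3 ≤ k → ∀ (C : ℕ → Gate (Sym2 (Fin n))) (out : ℕ), Decomposable C out →
      DecidesClique C out k → n.choose k ≤ numAnd C out) ∧
    ∀ f g : ℕ → ℝ, Tendsto (fun k : ℕ => g k / k) atTop (nhds 0) →
      ∀ᶠ k : ℕ in atTop, ∀ᶠ n : ℕ in atTop, ∀ (C : ℕ → Gate (Sym2 (Fin n))) (out : ℕ),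
        Decomposable C out → DecidesClique C out k →
          f k * (n : ℝ) ^ g k < (numAnd C out : ℝ) := by
  refine ⟨fun n k hk C out hdec hC => lower_bound hk hC hdec, fun f g hg => ?_⟩
  filter_upwards [eventually_small g hg, eventually_ge_atTop 3] with k hk hk3
  have hk3' : (3 : ℝ) ≤ k := by exact_mod_cast hk3
  filter_upwards [eventually_choose k (g k) (f k) (by linarith)] with n hn C out hdec hC
  refine lt_of_lt_of_le hn ?_
  exact_mod_cast lower_bound hk3 hC hdec

end Pool.Agent.Lib.MP_678664_lc_ReadOnce.CircuitResult
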