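import Mathlib

/-!
# Linear read-once programs for the k-clique problem: definitions
-/

namespace Pool.Agent.Lib.MP_678664_lc_ReadOnce

open Matrix

/-- A linear read-once program of width `w` over `K` with one Boolean input variable for each
`a : ι`.  Its state is a vector in `K ^ w`, at the start `src`.  It reads the variables in the list
`order`, which has no repetitions, one after the other; when it reads the value `β` of the variable
`a`, it multiplies its state by the matrix `mat a β`.  At the end it outputs the scalar product of
its state with the vector `snk`. -/
structure LinProg (K : Type*) (ι : Type) (w : ℕ) where
  /-- the order in which the variables are read -/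
  order : List ι
  /-- every variable is read at most once -/
  nodup : order.Nodup
  /-- the state at the start -/
  src : Fin w → K
  /-- the matrix applied to the state when the given variable has the given value -/
  mat : ι → Bool → Matrix (Fin w) (Fin w) K
  /-- the vector of the linear form applied at the end -/
  snk : Fin w → K

/-- The output of the program `P` on the input `x`:
`src * mat a₁ (x a₁) * ⋯ * mat a_r (x a_r) * snk`, where `a₁, …, a_r` is the order of `P`. -/
def LinProg.value {K : Type*} [Field K] {ι : Type} {w : ℕ} (P : LinProg K ι w) (x : ι → Bool) : K :=
  (P.src ᵥ* (P.order.map fun a => P.mat a (x a)).prod) ⬝ᵥ P.snk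

open Classical in
/-- The program `P`, which has one input variable for each unordered pair of vertices
`0, …, n-1` (true if the pair is an edge of the graph), decides the `k`-clique problem for graphs
with `n` vertices: its output is non-zero exactly on the graphs which have a `k`-clique. -/
def LinProg.DecidesClique {K : Type*} [Field K] {n w : ℕ} (P : LinProg K (Sym2 (Fin n)) w)
    (k : ℕ) : Prop :=
  ∀ G : SimpleGraph (Fin n),
    P.value (fun e => decide (e ∈ G.edgeSet)) ≠ 0 ↔ ¬ G.CliqueFree k

end Pool.Agent.Lib.MP_678664_lc_ReadOnce
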