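import Pool.Agent.Lib.MP_678664_lc_ReadOnce.ProgramDefs
import Pool.Agent.Lib.MP_678664_lc_ReadOnce.CircuitProof

namespace Pool.Agent.Lib.MP_678664_lc_ReadOnce

open Finset Matrix

/-! ### Vectors of the cut -/

section cut

variable {K : Type*} [Field K] {ι : Type} {w : ℕ} (P : LinProg K ι w)

/-- the state after `t` steps -/
def pre (t : ℕ) (x : ι → Bool) : Fin w → K :=
  P.src ᵥ* ((P.order.take t).map fun a => P.mat a (x a)).prod

/-- the linear form which maps the state after `t` steps to the output -/
def post (t : ℕ) (x : ι → Bool) : Fin w → K :=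
  ((P.order.drop t).map fun a => P.mat a (x a)).prod *ᵥ P.snk

theorem value_eq (t : ℕ) (x : ι → Bool) : P.value x = pre P t x ⬝ᵥ post P t x := by
  unfold LinProg.value pre post
  rw [dotProduct_mulVec, vecMul_vecMul, ← List.prod_append, ← List.map_append,
    List.take_append_drop]

theorem pre_congr (t : ℕ) {x y : ι → Bool} (h : ∀ a ∈ P.order.take t, x a = y a) :
    pre P t x = pre P t y := by
  unfold pre
  congr 2
  apply List.map_congr_left
  intro a ha
  rw [h a ha]

theorem post_congr (t : ℕ) {x y : ι → Bool} (h : ∀ a ∈ P.order.drop t, x a = y a) :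
    post P t x = post P t y := by
  unfold post
  congr 2
  apply List.map_congr_left
  intro a ha
  rw [h a ha]

omit [Field K] in
theorem not_mem_drop {t : ℕ} {a : ι} (h : a ∈ P.order.take t) : a ∉ P.order.drop t := by
  intro h'
  have hnd := P.nodup
  rw [← List.take_append_drop t P.order] at hnd
  exact (List.disjoint_of_nodup_append hnd) h h'

end cut

/-- Rank argument: a fooling family for a bilinear form in `w` coordinates has at most `w`
elements. -/
theorem card_le_of_dual {K : Type*} [Field K] {w : ℕ} {κ : Type*} [Fintype κ]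
    (a b : κ → Fin w → K) (hd : ∀ i, a i ⬝ᵥ b i ≠ 0) (ho : ∀ i j, i ≠ j → a i ⬝ᵥ b j = 0) :
    Fintype.card κ ≤ w := by
  classical
  have hli : LinearIndependent K a := by
    rw [Fintype.linearIndependent_iff]
    intro g hg i
    have h1 : (∑ j, g j • a j) ⬝ᵥ b i = 0 := by rw [hg, zero_dotProduct]
    rw [sum_dotProduct, Finset.sum_eq_single i] at h1
    · rw [smul_dotProduct, smul_eq_mul] at h1
      exact (mul_eq_zero.1 h1).resolve_right (hd i)
    · intro j _ hji
      rw [smul_dotProduct, ho j i hji, smul_zero]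
    · intro h; exact absurd (Finset.mem_univ i) h
  have := hli.fintype_card_le_finrank
  simpa using this

section main

variable {K : Type*} [Field K] {n k w : ℕ} {P : LinProg K (Sym2 (Fin n)) w}

theorem value_iff (hP : P.DecidesClique k) (F : Finset (Sym2 (Fin n)))
    (hF : ∀ e ∈ F, ¬ e.IsDiag) :
    P.value (fun e => decide (e ∈ F)) ≠ 0 ↔ ∃ T : Finset (Fin n), T.card = k ∧ edges T ⊆ F := by
  have h1 := hP (SimpleGraph.fromEdgeSet (F : Set (Sym2 (Fin n))))
  rw [clique_iff] at h1
  rw [← h1]
  refine iff_of_eq (congrArg (fun x => P.value x ≠ 0) ?_)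
  funext e
  refine (@decide_eq_decide _ _ _ _).2 ?_
  rw [SimpleGraph.edgeSet_fromEdgeSet]
  constructor
  · intro h
    exact ⟨Finset.mem_coe.2 h, fun h' => hF e h (by simpa using h')⟩
  · intro h
    exact Finset.mem_coe.1 h.1

/-- every edge is read -/
theorem mem_order (hP : P.DecidesClique k) (hk : 2 ≤ k) (hkn : k ≤ n) {u v : Fin n}
    (huv : u ≠ v) : s(u, v) ∈ P.order := by
  classical
  by_contra ho
  obtain ⟨S, hS1, _, hS2⟩ := Finset.exists_subsuperset_card_eq (s := {u, v})
    (t := (univ : Finset (Fin n))) (n := k) (Finset.subset_univ _)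
    (by rw [Finset.card_pair huv]; exact hk) (by simpa using hkn)
  have hu : u ∈ S := hS1 (by simp)
  have hv : v ∈ S := hS1 (by simp)
  have he : s(u, v) ∈ edges S := mem_edges.2 ⟨hu, hv, huv⟩
  have h1 := (value_iff hP (edges S) (fun e he => not_isDiag_of_mem he)).2
    ⟨S, hS2, Finset.Subset.refl _⟩
  have h2 := value_iff hP ((edges S).erase s(u, v))
    (fun e he => not_isDiag_of_mem (Finset.mem_of_mem_erase he))
  have h3 : P.value (fun e => decide (e ∈ (edges S).erase s(u, v))) =
      P.value (fun e => decide (e ∈ edges S)) := by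
    unfold LinProg.value
    congr 3
    apply List.map_congr_left
    intro B hB
    have hBA : B ≠ s(u, v) := by rintro rfl; exact ho hB
    simp [hBA]
  rw [h3] at h2
  obtain ⟨T, hT, hsub⟩ := h2.1 h1
  have h4 := Finset.card_le_card hsub
  rw [Finset.card_erase_of_mem he, card_edges, card_edges, hS2, hT] at h4
  have h5 : 0 < k.choose 2 := Nat.choose_pos hk
  omega

variable (P) in
/-- the number of neighbours `u` of `v` such that the edge `uv` is read in the first `t` steps -/
def deg (t : ℕ) (v : Fin n) : ℕ :=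
  (univ.filter fun u => u ≠ v ∧ s(v, u) ∈ P.order.take t).card

omit [Field K] in
theorem deg_succ_le (t : ℕ) (v : Fin n) : deg P (t + 1) v ≤ deg P t v + 1 := by
  classical
  unfold deg
  by_cases ht : t < P.order.length
  · by_cases hb : ∃ u, s(v, u) = P.order[t]
    · obtain ⟨u₀, hu₀⟩ := hb
      refine (Finset.card_le_card (t := insert u₀
        (univ.filter fun u => u ≠ v ∧ s(v, u) ∈ P.order.take t)) ?_).trans
          (Finset.card_insert_le _ _)
      intro u hu
      rw [Finset.mem_filter, List.take_add_one, List.mem_append] at hu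
      rw [Finset.mem_insert, Finset.mem_filter]
      obtain ⟨_, huv, h | h⟩ := hu
      · exact Or.inr ⟨Finset.mem_univ _, huv, h⟩
      · left
        rw [List.getElem?_eq_getElem ht] at h
        simp only [Option.toList_some, List.mem_singleton] at h
        rw [← hu₀] at h
        exact Sym2.congr_right.1 h
    · refine (Finset.card_le_card ?_).trans (Nat.le_succ _)
      intro u hu
      rw [Finset.mem_filter, List.take_add_one, List.mem_append] at hu
      rw [Finset.mem_filter]
      obtain ⟨_, huv, h | h⟩ := hu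
      · exact ⟨Finset.mem_univ _, huv, h⟩
      · rw [List.getElem?_eq_getElem ht] at h
        simp only [Option.toList_some, List.mem_singleton] at h
        exact absurd ⟨u, h⟩ hb
  · rw [List.take_of_length_le (by omega), List.take_of_length_le (by omega)]
    omega

/-- a cut, two vertices `a`, `b`, and many vertices `v` such that `va` is read before the cut and
`vb` after it -/
theorem exists_cut (hP : P.DecidesClique k) (hk : 2 ≤ k) (hkn : k ≤ n) :
    ∃ (t : ℕ) (a b : Fin n) (V : Finset (Fin n)), a ≠ b ∧ n ≤ 4 * V.card + 2 ∧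
      ∀ v ∈ V, v ≠ a ∧ v ≠ b ∧ s(v, a) ∈ P.order.take t ∧ s(v, b) ∉ P.order.take t := by
  classical
  have hn2 : 2 ≤ n := by omega
  have hex : ∃ t, ∃ a, n - 1 ≤ 2 * deg P t a := by
    refine ⟨P.order.length, ⟨0, by omega⟩, ?_⟩
    unfold deg
    rw [List.take_length]
    have h1 : (univ.filter fun u => u ≠ (⟨0, by omega⟩ : Fin n) ∧
        s((⟨0, by omega⟩ : Fin n), u) ∈ P.order) = univ.erase (⟨0, by omega⟩ : Fin n) := by
      ext u
      simp only [Finset.mem_filter, Finset.mem_univ, true_and, Finset.mem_erase, and_true,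
        and_iff_left_iff_imp]
      intro hu
      exact mem_order hP hk hkn (Ne.symm hu)
    rw [h1, Finset.card_erase_of_mem (Finset.mem_univ _), Finset.card_univ, Fintype.card_fin]
    omega
  obtain ⟨t, ht, hmin⟩ : ∃ t, (∃ a, n - 1 ≤ 2 * deg P t a) ∧
      ∀ s, s < t → ¬ ∃ a, n - 1 ≤ 2 * deg P s a :=
    ⟨Nat.find hex, Nat.find_spec hex, fun s hs => Nat.find_min hex hs⟩
  have htpos : t ≠ 0 := by
    rintro rfl
    obtain ⟨a, ha⟩ := ht
    have : deg P 0 a = 0 := by simp [deg]
    omega
  obtain ⟨s, rfl⟩ := Nat.exists_eq_succ_of_ne_zero htpos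
  have hs := hmin s (Nat.lt_succ_self s)
  push Not at hs
  have hle : ∀ v, 2 * deg P (s + 1) v ≤ n := by
    intro v
    have h1 := hs v
    have h2 := deg_succ_le (P := P) s v
    omega
  obtain ⟨a, ha⟩ := ht
  rw [Nat.succ_eq_add_one] at ha
  set A := univ.filter fun u => u ≠ a ∧ s(a, u) ∈ P.order.take (s + 1) with hA
  have hAcard : A.card = deg P (s + 1) a := rfl
  let r : Fin n → Fin n → Prop := fun v b => b ≠ v ∧ s(v, b) ∉ P.order.take (s + 1)
  have habove : ∀ v ∈ A, n - 1 - deg P (s + 1) v ≤
      ((univ.erase a).bipartiteAbove r v).card := by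
    intro v hv
    have h1 : (univ.erase a).bipartiteAbove r v =
        (univ.erase v) \ (univ.filter fun u => u ≠ v ∧ s(v, u) ∈ P.order.take (s + 1)) := by
      ext b
      simp only [Finset.bipartiteAbove, Finset.mem_filter, Finset.mem_erase, Finset.mem_univ,
        and_true, true_and, Finset.mem_sdiff, r]
      constructor
      · rintro ⟨_, h2, h3⟩
        exact ⟨h2, fun h4 => h3 h4.2⟩
      · rintro ⟨h2, h3⟩
        refine ⟨?_, h2, fun h4 => h3 ⟨h2, h4⟩⟩
        rintro rfl
        apply h3
        rw [hA, Finset.mem_filter] at hv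
        refine ⟨h2, ?_⟩
        rw [Sym2.eq_swap]
        exact hv.2.2
    rw [h1]
    have h2 := Finset.le_card_sdiff
      (univ.filter fun u => u ≠ v ∧ s(v, u) ∈ P.order.take (s + 1)) (univ.erase v)
    rw [Finset.card_erase_of_mem (Finset.mem_univ _), Finset.card_univ, Fintype.card_fin] at h2
    exact h2
  have hdc := Finset.sum_card_bipartiteAbove_eq_sum_card_bipartiteBelow (s := A)
    (t := univ.erase a) r
  -- pick the best `b`
  by_contra hcon
  push Not at hcon
  have hbelow : ∀ b ∈ univ.erase a, 4 * (A.bipartiteBelow r b).card + 2 < n := by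
    intro b hb
    by_contra h1
    rw [not_lt] at h1
    obtain ⟨v, hv, h2⟩ := hcon (s + 1) a b (A.bipartiteBelow r b)
      (Ne.symm (Finset.ne_of_mem_erase hb)) h1
    rw [Finset.bipartiteBelow, Finset.mem_filter, hA, Finset.mem_filter] at hv
    obtain ⟨⟨_, h3, h4⟩, h5, h6⟩ := hv
    exact h6 (h2 h3 (Ne.symm h5) (by rw [Sym2.eq_swap]; exact h4))
  have h1 : 2 * ∑ v ∈ A, ((univ.erase a).bipartiteAbove r v).card ≥ A.card * (n - 2) := by
    rw [Finset.mul_sum, ← smul_eq_mul, ← Finset.sum_const]
    apply Finset.sum_le_sum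
    intro v hv
    have h2 := habove v hv
    have h3 := hle v
    omega
  have h2 : 4 * ∑ b ∈ univ.erase a, (A.bipartiteBelow r b).card + (n - 1) * 2 + (n - 1) ≤
      (n - 1) * n := by
    have h3 : ∑ b ∈ univ.erase a, (4 * (A.bipartiteBelow r b).card + 3) ≤
        ∑ b ∈ univ.erase a, n := by
      apply Finset.sum_le_sum
      intro b hb
      have := hbelow b hb
      omega
    rw [Finset.sum_add_distrib, ← Finset.mul_sum, Finset.sum_const, Finset.sum_const,
      Finset.card_erase_of_mem (Finset.mem_univ _), Finset.card_univ, Fintype.card_fin,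
      smul_eq_mul, smul_eq_mul] at h3
    linarith
  rw [hdc] at h1
  rw [hAcard] at h1
  set sg := ∑ b ∈ univ.erase a, (A.bipartiteBelow r b).card
  have h3 : (n - 1) * (n - 2) ≤ 2 * deg P (s + 1) a * (n - 2) := Nat.mul_le_mul_right _ ha
  have h4 : 2 * deg P (s + 1) a * (n - 2) ≤ 4 * sg := by
    calc 2 * deg P (s + 1) a * (n - 2) = 2 * (deg P (s + 1) a * (n - 2)) := by ring
      _ ≤ 2 * (2 * sg) := Nat.mul_le_mul_left _ h1
      _ = 4 * sg := by ring
  have h5 : (n - 1) * n = (n - 1) * (n - 2) + (n - 1) * 2 := by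
    rw [← mul_add]; congr 1; omega
  omega

theorem lower_bound_linear (hP : P.DecidesClique k) (hk : 3 ≤ k) :
    ((n - 2) / (4 * (k - 2))) ^ (k - 2) ≤ w := by
  classical
  set m := (n - 2) / (4 * (k - 2)) with hm
  by_cases hm0 : m = 0
  · rw [hm0, zero_pow (by omega)]; exact Nat.zero_le _
  have hm1 : 4 * (k - 2) * m ≤ n - 2 := Nat.mul_div_le _ _
  have hkn : k ≤ n := by
    have h1 : 4 * (k - 2) * 1 ≤ 4 * (k - 2) * m :=
      Nat.mul_le_mul_left _ (Nat.one_le_iff_ne_zero.2 hm0)
    have h2 : 4 * (k - 2) ≤ n - 2 := by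
      rw [mul_one] at h1
      exact h1.trans hm1
    omega
  obtain ⟨t, a, b, V, hab, hV, hVp⟩ := exists_cut hP (by omega) hkn
  have hcard : Fintype.card (Fin (k - 2) × Fin m) ≤ Fintype.card V := by
    rw [Fintype.card_prod, Fintype.card_fin, Fintype.card_fin, Fintype.card_coe]
    have : 4 * ((k - 2) * m) ≤ n - 2 := by rw [← mul_assoc]; exact hm1
    omega
  obtain ⟨ψ₀⟩ := Function.Embedding.nonempty_of_card_le hcard
  let ψ : Fin (k - 2) × Fin m → Fin n := fun p => (ψ₀ p : Fin n)
  have hψ : Function.Injective ψ := fun p q h => ψ₀.injective (Subtype.ext h)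
  have hψV : ∀ p, ψ p ∈ V := fun p => (ψ₀ p).2
  have hψa : ∀ p, ψ p ≠ a := fun p => (hVp _ (hψV p)).1
  have hψb : ∀ p, ψ p ≠ b := fun p => (hVp _ (hψV p)).2.1
  -- the clique of a choice function
  let S : (Fin (k - 2) → Fin m) → Finset (Fin n) := fun c =>
    insert a (insert b (univ.image fun j => ψ (j, c j)))
  have hmemS : ∀ c v, v ∈ S c ↔ v = a ∨ v = b ∨ ∃ j, ψ (j, c j) = v := by
    intro c v
    simp [S]
  have hψS : ∀ c j x, ψ (j, x) ∈ S c → x = c j := by
    intro c j x h
    rcases (hmemS c _).1 h with h | h | ⟨j', h⟩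
    · exact absurd h (hψa _)
    · exact absurd h (hψb _)
    · have := hψ h
      rw [Prod.mk.injEq] at this
      obtain ⟨rfl, rfl⟩ := this
      rfl
  have hScard : ∀ c, (S c).card = k := by
    intro c
    have h1 : b ∉ univ.image fun j => ψ (j, c j) := by
      intro h
      obtain ⟨j, _, h⟩ := Finset.mem_image.1 h
      exact hψb _ h
    have h2 : a ∉ insert b (univ.image fun j => ψ (j, c j)) := by
      intro h
      rcases Finset.mem_insert.1 h with h | h
      · exact hab h
      · obtain ⟨j, _, h⟩ := Finset.mem_image.1 h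
        exact hψa _ h
    have h3 : (univ.image fun j => ψ (j, c j)).card = k - 2 := by
      rw [Finset.card_image_of_injective, Finset.card_univ, Fintype.card_fin]
      intro j j' h
      have := hψ h
      exact (Prod.mk.inj this).1
    show (insert a (insert b (univ.image fun j => ψ (j, c j)))).card = k
    rw [Finset.card_insert_of_notMem h2, Finset.card_insert_of_notMem h1, h3]
    omega
  have hfool := card_le_of_dual (K := K) (w := w)
    (fun c : Fin (k - 2) → Fin m => pre P t (fun e => decide (e ∈ edges (S c))))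
    (fun c => post P t (fun e => decide (e ∈ edges (S c)))) ?_ ?_
  · rwa [Fintype.card_pi, Finset.prod_const, Finset.card_univ, Fintype.card_fin,
      Fintype.card_fin] at hfool
  · intro c
    show pre P t (fun e => decide (e ∈ edges (S c))) ⬝ᵥ
      post P t (fun e => decide (e ∈ edges (S c))) ≠ 0
    rw [← value_eq]
    exact (value_iff hP _ (fun e he => not_isDiag_of_mem he)).2
      ⟨S c, hScard c, Finset.Subset.refl _⟩
  · intro c c' hcc
    show pre P t (fun e => decide (e ∈ edges (S c))) ⬝ᵥ
      post P t (fun e => decide (e ∈ edges (S c'))) = 0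
    set F : Finset (Sym2 (Fin n)) :=
      ((edges (S c)).filter fun e => e ∈ P.order.take t) ∪
        ((edges (S c')).filter fun e => e ∉ P.order.take t) with hF
    have h5 : pre P t (fun e => decide (e ∈ edges (S c))) =
        pre P t (fun e => decide (e ∈ F)) := by
      apply pre_congr
      intro e he
      simp [hF, he]
    have h6 : post P t (fun e => decide (e ∈ edges (S c'))) =
        post P t (fun e => decide (e ∈ F)) := by
      apply post_congr
      intro e he
      have he' : e ∉ P.order.take t := fun h => not_mem_drop P h he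
      simp [hF, he']
    rw [h5, h6, ← value_eq]
    by_contra hne
    obtain ⟨T, hT, hTF⟩ := (value_iff hP F (by
      intro e he
      rcases Finset.mem_union.1 he with h8 | h8
      · exact not_isDiag_of_mem (Finset.mem_filter.1 h8).1
      · exact not_isDiag_of_mem (Finset.mem_filter.1 h8).1)).1 hne
    -- an edge between two vertices of `T`
    have hedge : ∀ u v, u ∈ T → v ∈ T → u ≠ v →
        (u ∈ S c ∧ v ∈ S c ∧ s(u, v) ∈ P.order.take t) ∨
          (u ∈ S c' ∧ v ∈ S c' ∧ s(u, v) ∉ P.order.take t) := by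
      intro u v hu hv huv
      have h7 := hTF (mem_edges.2 ⟨hu, hv, huv⟩)
      rcases Finset.mem_union.1 h7 with h8 | h8
      · obtain ⟨h9, h10⟩ := Finset.mem_filter.1 h8
        exact Or.inl ⟨(mem_edges.1 h9).1, (mem_edges.1 h9).2.1, h10⟩
      · obtain ⟨h9, h10⟩ := Finset.mem_filter.1 h8
        exact Or.inr ⟨(mem_edges.1 h9).1, (mem_edges.1 h9).2.1, h10⟩
    -- the vertices of `T` outside `a`, `b`
    have hslot : ∀ u ∈ T, u ≠ a → u ≠ b → ∃ j x, ψ (j, x) = u ∧ (x = c j ∨ x = c' j) := by
      intro u hu hua hub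
      have h1 : 1 < T.card := by omega
      obtain ⟨v, hv, hvu⟩ := Finset.exists_mem_ne h1 u
      rcases hedge u v hu hv (Ne.symm hvu) with h | h
      · rcases (hmemS c u).1 h.1 with h' | h' | ⟨j, h'⟩
        · exact absurd h' hua
        · exact absurd h' hub
        · exact ⟨j, c j, h', Or.inl rfl⟩
      · rcases (hmemS c' u).1 h.1 with h' | h' | ⟨j, h'⟩
        · exact absurd h' hua
        · exact absurd h' hub
        · exact ⟨j, c' j, h', Or.inr rfl⟩
    have hone : ∀ j x y, ψ (j, x) ∈ T → ψ (j, y) ∈ T → x = y := by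
      intro j x y hx hy
      by_contra hxy
      have hne' : ψ (j, x) ≠ ψ (j, y) := by
        intro h
        exact hxy (Prod.mk.inj (hψ h)).2
      rcases hedge _ _ hx hy hne' with h | h
      · exact hxy ((hψS c j x h.1).trans (hψS c j y h.2.1).symm)
      · exact hxy ((hψS c' j x h.1).trans (hψS c' j y h.2.1).symm)
    let f : Fin n → Option (Fin (k - 2)) := fun u =>
      if h : ∃ p, ψ p = u then some (Classical.choose h).1 else none
    have hf : ∀ j x, f (ψ (j, x)) = some j := by
      intro j x
      have h : ∃ p, ψ p = ψ (j, x) := ⟨_, rfl⟩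
      have h1 := hψ (Classical.choose_spec h)
      show (if h : ∃ p, ψ p = ψ (j, x) then some (Classical.choose h).1 else none) = some j
      rw [dif_pos h, h1]
    set T' := (T.erase a).erase b with hT'
    have hT'mem : ∀ u, u ∈ T' ↔ u ≠ b ∧ u ≠ a ∧ u ∈ T := by
      intro u
      rw [hT', Finset.mem_erase, Finset.mem_erase]
    have hfin : Set.InjOn f T' := by
      intro u hu v hv huv
      obtain ⟨hub, hua, huT⟩ := (hT'mem u).1 (Finset.mem_coe.1 hu)
      obtain ⟨hvb, hva, hvT⟩ := (hT'mem v).1 (Finset.mem_coe.1 hv)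
      obtain ⟨j, x, rfl, _⟩ := hslot u huT hua hub
      obtain ⟨j', y, rfl, _⟩ := hslot v hvT hva hvb
      rw [hf, hf, Option.some.injEq] at huv
      subst huv
      rw [hone j x y huT hvT]
    have himg : T'.image f ⊆ univ.map ⟨some, Option.some_injective _⟩ := by
      intro o ho
      obtain ⟨u, hu, rfl⟩ := Finset.mem_image.1 ho
      obtain ⟨hub, hua, huT⟩ := (hT'mem u).1 hu
      obtain ⟨j, x, rfl, _⟩ := hslot u huT hua hub
      rw [hf]
      simp
    have hcimg : (T'.image f).card = T'.card := Finset.card_image_of_injOn hfin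
    have hT'le : T'.card ≤ k - 2 := by
      have := Finset.card_le_card himg
      rw [hcimg, Finset.card_map, Finset.card_univ, Fintype.card_fin] at this
      exact this
    have haT : a ∈ T := by
      by_contra haT
      have h1 : T.erase a = T := Finset.erase_eq_of_notMem haT
      have h2 := Finset.pred_card_le_card_erase (s := T) (a := b)
      rw [hT', h1] at hT'le
      omega
    have hbT : b ∈ T := by
      by_contra hbT
      have h1 : b ∉ T.erase a := fun h => hbT (Finset.mem_of_mem_erase h)
      have h2 := Finset.pred_card_le_card_erase (s := T) (a := a)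
      rw [hT', Finset.erase_eq_of_notMem h1] at hT'le
      omega
    have hT'card : T'.card = k - 2 := by
      rw [hT', Finset.card_erase_of_mem (Finset.mem_erase.2 ⟨Ne.symm hab, hbT⟩),
        Finset.card_erase_of_mem haT, hT]
      omega
    have himg2 : T'.image f = univ.map ⟨some, Option.some_injective _⟩ := by
      apply Finset.eq_of_subset_of_card_le himg
      rw [hcimg, hT'card, Finset.card_map, Finset.card_univ, Fintype.card_fin]
    obtain ⟨j, hj⟩ := Function.ne_iff.1 hcc
    have hj2 : some j ∈ T'.image f := by rw [himg2]; simp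
    obtain ⟨u, hu, hfu⟩ := Finset.mem_image.1 hj2
    obtain ⟨hub, hua, huT⟩ := (hT'mem u).1 hu
    obtain ⟨j', x, rfl, hx⟩ := hslot u huT hua hub
    rw [hf, Option.some.injEq] at hfu
    subst hfu
    have hVu := hVp _ (hψV (j', x))
    rcases hx with rfl | rfl
    · -- the edge to `b`
      rcases hedge _ b huT hbT hub with h | h
      · exact hVu.2.2.2 h.2.2
      · exact hj (hψS c' j' _ h.1)
    · rcases hedge _ a huT haT hua with h | h
      · exact hj (hψS c j' _ h.1).symm
      · exact h.2.2 hVu.2.2.1

end main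

end Pool.Agent.Lib.MP_678664_lc_ReadOnce
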