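import Pool.Agent.Lib.MP_678664_lc_ReadOnce.ProgramProof
import Pool.Agent.Lib.MP_678664_lc_ReadOnce.Numeric

namespace Pool.Agent.Lib.MP_678664_lc_ReadOnce

open Finset Matrix

/-- The combinatorial core: two cliques `S ∪ {c}` and `S' ∪ {c}`, the part `p` of the edges of the
first and the other part of the edges of the second. -/
theorem mixed_clique {n k : ℕ} (p : Sym2 (Fin n) → Prop) (c : Fin n) (S S' T : Finset (Fin n))
    (hcS : c ∉ S) (hcS' : c ∉ S') (hpc : ∀ v ∈ S', p s(v, c))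
    (hspan : ∀ v ∈ S, ∃ u ∈ S, u ≠ v ∧ ¬ p s(v, u))
    (hk : 2 ≤ k) (hS : S.card + 1 = k) (hS' : S'.card + 1 = k) (hT : T.card = k)
    (hedge : ∀ u ∈ T, ∀ v ∈ T, u ≠ v →
      (u ∈ insert c S ∧ v ∈ insert c S ∧ p s(u, v)) ∨
        (u ∈ insert c S' ∧ v ∈ insert c S' ∧ ¬ p s(u, v))) : S = S' := by
  classical
  by_cases hcT : c ∈ T
  · have h1 : T.erase c ⊆ S := by
      intro u hu
      obtain ⟨huc, huT⟩ := Finset.mem_erase.1 hu
      rcases hedge u huT c hcT huc with h | h
      · exact (Finset.mem_insert.1 h.1).resolve_left huc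
      · have h2 := (Finset.mem_insert.1 h.1).resolve_left huc
        exact absurd (hpc u h2) h.2.2
    have h2 : T.erase c = S := by
      apply Finset.eq_of_subset_of_card_le h1
      rw [Finset.card_erase_of_mem hcT]
      omega
    have h3 : ∀ v ∈ S, v ∈ T := fun v hv => Finset.mem_of_mem_erase (h2 ▸ hv)
    have h4 : S ⊆ S' := by
      intro v hv
      obtain ⟨u, hu, huv, hp⟩ := hspan v hv
      rcases hedge v (h3 v hv) u (h3 u hu) (Ne.symm huv) with h | h
      · exact absurd h.2.2 hp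
      · refine (Finset.mem_insert.1 h.1).resolve_left ?_
        rintro rfl
        exact hcS hv
    exact Finset.eq_of_subset_of_card_le h4 (by omega)
  · exfalso
    have hmem : ∀ u ∈ T, u ∈ S ∨ u ∈ S' := by
      intro u hu
      obtain ⟨v, hv, hvu⟩ := Finset.exists_mem_ne (show 1 < T.card by omega) u
      have huc : u ≠ c := by rintro rfl; exact hcT hu
      rcases hedge u hu v hv (Ne.symm hvu) with h | h
      · exact Or.inl ((Finset.mem_insert.1 h.1).resolve_left huc)
      · exact Or.inr ((Finset.mem_insert.1 h.1).resolve_left huc)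
    have hns : ¬ T ⊆ S := by
      intro h
      have := Finset.card_le_card h
      omega
    have hns' : ¬ T ⊆ S' := by
      intro h
      have := Finset.card_le_card h
      omega
    obtain ⟨β, hβ, hβS⟩ := Finset.not_subset.1 hns
    obtain ⟨α, hα, hαS'⟩ := Finset.not_subset.1 hns'
    have hαc : α ≠ c := by rintro rfl; exact hcT hα
    have hβc : β ≠ c := by rintro rfl; exact hcT hβ
    have hαβ : α ≠ β := by
      rintro rfl
      rcases hmem α hα with h | h
      · exact hβS h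
      · exact hαS' h
    rcases hedge α hα β hβ hαβ with h | h
    · exact hβS ((Finset.mem_insert.1 h.2.1).resolve_left hβc)
    · exact hαS' ((Finset.mem_insert.1 h.1).resolve_left hαc)

section main

variable {K : Type*} [Field K] {n k w : ℕ} {P : LinProg K (Sym2 (Fin n)) w}

/-- The clique of the mixed input. -/
theorem mixed_value (hP : P.DecidesClique k) (t : ℕ) (A B : Finset (Fin n))
    (hne : pre P t (fun e => decide (e ∈ edges A)) ⬝ᵥ
      post P t (fun e => decide (e ∈ edges B)) ≠ 0) :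
    ∃ T : Finset (Fin n), T.card = k ∧ ∀ u ∈ T, ∀ v ∈ T, u ≠ v →
      (u ∈ A ∧ v ∈ A ∧ s(u, v) ∈ P.order.take t) ∨
        (u ∈ B ∧ v ∈ B ∧ s(u, v) ∉ P.order.take t) := by
  classical
  set F : Finset (Sym2 (Fin n)) :=
    ((edges A).filter fun e => e ∈ P.order.take t) ∪
      ((edges B).filter fun e => e ∉ P.order.take t) with hF
  have h5 : pre P t (fun e => decide (e ∈ edges A)) = pre P t (fun e => decide (e ∈ F)) := by
    apply pre_congr
    intro e he
    simp [hF, he]
  have h6 : post P t (fun e => decide (e ∈ edges B)) = post P t (fun e => decide (e ∈ F)) := by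
    apply post_congr
    intro e he
    have he' : e ∉ P.order.take t := fun h => not_mem_drop P h he
    simp [hF, he']
  rw [h5, h6, ← value_eq] at hne
  obtain ⟨T, hT, hTF⟩ := (value_iff hP F (by
    intro e he
    rcases Finset.mem_union.1 he with h8 | h8
    · exact not_isDiag_of_mem (Finset.mem_filter.1 h8).1
    · exact not_isDiag_of_mem (Finset.mem_filter.1 h8).1)).1 hne
  refine ⟨T, hT, fun u hu v hv huv => ?_⟩
  have h7 := hTF (mem_edges.2 ⟨hu, hv, huv⟩)
  rcases Finset.mem_union.1 h7 with h8 | h8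
  · obtain ⟨h9, h10⟩ := Finset.mem_filter.1 h8
    exact Or.inl ⟨(mem_edges.1 h9).1, (mem_edges.1 h9).2.1, h10⟩
  · obtain ⟨h9, h10⟩ := Finset.mem_filter.1 h8
    exact Or.inr ⟨(mem_edges.1 h9).1, (mem_edges.1 h9).2.1, h10⟩

theorem tight_lower (hP : P.DecidesClique k) (hk : 3 ≤ k) :
    ((n + 1) / 4).choose (k - 1) ≤ 2 * w := by
  classical
  by_cases hkn : k ≤ n
  swap
  · rw [Nat.choose_eq_zero_of_lt (by omega)]
    exact Nat.zero_le _
  obtain ⟨t, a, b, V, hab, hV, hVp⟩ := exists_cut hP (by omega) hkn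
  set Q := V.powersetCard (k - 1) with hQ
  have hQm : ∀ S ∈ Q, S ⊆ V ∧ S.card + 1 = k := by
    intro S hS
    rw [hQ, Finset.mem_powersetCard] at hS
    exact ⟨hS.1, by omega⟩
  have haS : ∀ S ∈ Q, a ∉ S := fun S hS h => (hVp a ((hQm S hS).1 h)).1 rfl
  have hbS : ∀ S ∈ Q, b ∉ S := fun S hS h => (hVp b ((hQm S hS).1 h)).2.1 rfl
  set Q₁ := Q.filter fun S => ∀ v ∈ S, ∃ u ∈ S, u ≠ v ∧ ¬ s(v, u) ∈ P.order.take t with hQ₁
  set Q₂ := Q.filter fun S => ∀ v ∈ S, ∃ u ∈ S, u ≠ v ∧ s(v, u) ∈ P.order.take t with hQ₂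
  have hcov : Q ⊆ Q₁ ∪ Q₂ := by
    intro S hS
    rw [Finset.mem_union, hQ₁, hQ₂, Finset.mem_filter, Finset.mem_filter]
    by_contra hcon
    have h1 : ∃ v ∈ S, ∀ u ∈ S, u ≠ v → s(v, u) ∉ P.order.take t := by
      by_contra h
      push Not at h
      exact hcon (Or.inr ⟨hS, h⟩)
    obtain ⟨v₀, hv₀, h0⟩ := h1
    apply hcon
    left
    refine ⟨hS, fun v hv => ?_⟩
    by_cases hvv : v = v₀
    · obtain ⟨u, hu, huv⟩ := Finset.exists_mem_ne (show 1 < S.card by
        have := (hQm S hS).2; omega) v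
      exact ⟨u, hu, huv, by rw [hvv]; exact h0 u hu (by rw [← hvv]; exact huv)⟩
    · refine ⟨v₀, hv₀, Ne.symm hvv, ?_⟩
      rw [Sym2.eq_swap]
      exact h0 v hv hvv
  have hdiag : ∀ (c : Fin n) (S : Finset (Fin n)), c ∉ S → S.card + 1 = k →
      pre P t (fun e => decide (e ∈ edges (insert c S))) ⬝ᵥ
        post P t (fun e => decide (e ∈ edges (insert c S))) ≠ 0 := by
    intro c S hc hS
    rw [← value_eq]
    refine (value_iff hP _ (fun e he => not_isDiag_of_mem he)).2
      ⟨insert c S, ?_, Finset.Subset.refl _⟩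
    rw [Finset.card_insert_of_notMem hc, hS]
  have h1 : Q₁.card ≤ w := by
    have h2 := card_le_of_dual (K := K) (w := w)
      (fun S : Q₁ => pre P t (fun e => decide (e ∈ edges (insert a S.1))))
      (fun S => post P t (fun e => decide (e ∈ edges (insert a S.1)))) ?_ ?_
    · rwa [Fintype.card_coe] at h2
    · intro S
      have hS := (Finset.mem_filter.1 S.2).1
      exact hdiag a S.1 (haS _ hS) (hQm _ hS).2
    · intro S S' hne
      by_contra hcon
      obtain ⟨T, hT, hedge⟩ := mixed_value hP t _ _ hcon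
      obtain ⟨hS, hsp⟩ := Finset.mem_filter.1 S.2
      obtain ⟨hS', _⟩ := Finset.mem_filter.1 S'.2
      exact hne (Subtype.ext (mixed_clique (fun e => e ∈ P.order.take t) a S.1 S'.1 T
        (haS _ hS) (haS _ hS') (fun v hv => (hVp v ((hQm _ hS').1 hv)).2.2.1) hsp (by omega)
        (hQm _ hS).2 (hQm _ hS').2 hT hedge))
  have h2 : Q₂.card ≤ w := by
    have h2 := card_le_of_dual (K := K) (w := w)
      (fun S : Q₂ => pre P t (fun e => decide (e ∈ edges (insert b S.1))))
      (fun S => post P t (fun e => decide (e ∈ edges (insert b S.1)))) ?_ ?_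
    · rwa [Fintype.card_coe] at h2
    · intro S
      have hS := (Finset.mem_filter.1 S.2).1
      exact hdiag b S.1 (hbS _ hS) (hQm _ hS).2
    · intro S S' hne
      by_contra hcon
      obtain ⟨T, hT, hedge⟩ := mixed_value hP t _ _ hcon
      obtain ⟨hS, _⟩ := Finset.mem_filter.1 S.2
      obtain ⟨hS', hsp⟩ := Finset.mem_filter.1 S'.2
      refine hne (Subtype.ext (mixed_clique (fun e => e ∉ P.order.take t) b S'.1 S.1 T
        (hbS _ hS') (hbS _ hS) (fun v hv => (hVp v ((hQm _ hS).1 hv)).2.2.2) ?_ (by omega)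
        (hQm _ hS').2 (hQm _ hS).2 hT ?_).symm)
      · intro v hv
        obtain ⟨u, hu, huv, hm⟩ := hsp v hv
        exact ⟨u, hu, huv, fun h => h hm⟩
      · intro u hu v hv huv
        rcases hedge u hu v hv huv with h | h
        · exact Or.inr ⟨h.1, h.2.1, fun h' => h' h.2.2⟩
        · exact Or.inl h
  have h3 : Q.card ≤ Q₁.card + Q₂.card :=
    (Finset.card_le_card hcov).trans (Finset.card_union_le _ _)
  have h4 : ((n + 1) / 4).choose (k - 1) ≤ Q.card := by
    rw [hQ, Finset.card_powersetCard]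
    apply Nat.choose_le_choose
    omega
  omega

end main

open Filter

theorem tight_asymptotic (f g : ℕ → ℝ) (hg : Tendsto (fun k : ℕ => g k / k) atTop (nhds 0)) :
    ∀ᶠ k : ℕ in atTop, ∀ᶠ n : ℕ in atTop, ∀ (K : Type*) [Field K] (w : ℕ)
      (P : LinProg K (Sym2 (Fin n)) w), P.DecidesClique k → f k * (n : ℝ) ^ g k < (w : ℝ) := by
  filter_upwards [eventually_small g hg, eventually_ge_atTop 3] with k hk hk3
  have hk3' : (3 : ℝ) ≤ k := by exact_mod_cast hk3
  set γ : ℝ := max (g k) 0 with hγ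
  have hγ0 : 0 ≤ γ := le_max_right _ _
  have hγk : γ < (k - 1 : ℕ) := by
    rw [Nat.cast_sub (by omega), Nat.cast_one]
    apply max_lt <;> linarith
  have h1 := eventually_choose (k - 1) γ (2 * |f k| * 5 ^ γ) hγk
  have h2 : Tendsto (fun n : ℕ => (n + 1) / 4) atTop atTop := by
    apply tendsto_atTop.2
    intro b
    filter_upwards [eventually_ge_atTop (4 * b)] with n hn
    omega
  filter_upwards [h2.eventually h1, eventually_ge_atTop 7] with n hn hn7 K _ w P hP
  have h3 := tight_lower hP hk3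
  set m := (n + 1) / 4 with hm
  have h4 : (n : ℝ) ≤ 5 * m := by
    have : n ≤ 5 * m := by omega
    exact_mod_cast this
  have hn1 : (1 : ℝ) ≤ n := by
    have : 1 ≤ n := by omega
    exact_mod_cast this
  have h5 : (n : ℝ) ^ g k ≤ (n : ℝ) ^ γ := Real.rpow_le_rpow_of_exponent_le hn1 (le_max_left _ _)
  have h6 : (n : ℝ) ^ γ ≤ 5 ^ γ * (m : ℝ) ^ γ := by
    rw [← Real.mul_rpow (by norm_num) (by positivity)]
    exact Real.rpow_le_rpow (by positivity) h4 hγ0
  have h7 : f k * (n : ℝ) ^ g k ≤ |f k| * (5 ^ γ * (m : ℝ) ^ γ) := by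
    calc f k * (n : ℝ) ^ g k ≤ |f k| * (n : ℝ) ^ g k := by
          gcongr
          exact le_abs_self _
      _ ≤ |f k| * (5 ^ γ * (m : ℝ) ^ γ) := by
          gcongr
          exact h5.trans h6
  have h8 : ((m.choose (k - 1) : ℕ) : ℝ) ≤ 2 * (w : ℝ) := by exact_mod_cast h3
  have h9 : 2 * |f k| * 5 ^ γ * (m : ℝ) ^ γ = 2 * (|f k| * (5 ^ γ * (m : ℝ) ^ γ)) := by ring
  rw [h9] at hn
  linarith

end Pool.Agent.Lib.MP_678664_lc_ReadOnce
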