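import Pool.Agent.Lib.MP_678664_lc_ReadOnce.ProgramDefs

namespace Pool.Agent.Lib.MP_678664_lc_ReadOnce

open Finset Matrix

section upper

variable {K : Type*} [Field K] {n : ℕ}

/-! ### The order of reading -/

/-- the pairs with larger element `v` -/
def blockList (n : ℕ) (v : Fin n) : List (Sym2 (Fin n)) :=
  s(v, v) :: ((List.finRange n).filter fun u => decide (u < v)).map fun u => s(u, v)

/-- the pairs in the order of their larger elements -/
def ord (n : ℕ) : List (Sym2 (Fin n)) := (List.finRange n).flatMap (blockList n)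

theorem mem_blockList {v : Fin n} {e : Sym2 (Fin n)} (h : e ∈ blockList n v) :
    ∃ u ≤ v, e = s(u, v) := by
  rcases List.mem_cons.1 h with h | h
  · exact ⟨v, le_rfl, h⟩
  · obtain ⟨u, hu, rfl⟩ := List.mem_map.1 h
    have := (List.mem_filter.1 hu).2
    exact ⟨u, by simpa using (of_decide_eq_true this).le, rfl⟩

theorem ord_nodup (n : ℕ) : (ord n).Nodup := by
  unfold ord
  rw [List.nodup_flatMap]
  constructor
  · intro v _
    unfold blockList
    rw [List.nodup_cons]
    constructor
    · intro h
      obtain ⟨u, hu, huv⟩ := List.mem_map.1 h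
      have h1 := of_decide_eq_true (List.mem_filter.1 hu).2
      have h2 : u = v := by
        have := Sym2.congr_left.1 huv
        exact this
      exact absurd h2 h1.ne
    · apply List.Nodup.map
      · intro u u' h
        exact Sym2.congr_left.1 h
      · exact (List.nodup_finRange n).filter _
  · refine (List.nodup_finRange n).imp ?_
    intro v v' hvv
    show List.Disjoint (blockList n v) (blockList n v')
    intro e he he'
    obtain ⟨u, hu, rfl⟩ := mem_blockList he
    obtain ⟨u', hu', h⟩ := mem_blockList he'
    rcases Sym2.eq_iff.1 h with ⟨_, h2⟩ | ⟨h1, h2⟩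
    · exact hvv h2
    · apply hvv
      apply le_antisymm
      · rw [h2]; exact hu'
      · rw [← h1]; exact hu

/-! ### The matrices for a fixed set `S` -/

variable (y : Fin n → K) (S : Finset (Fin n))

/-- all elements of `S` are smaller than `v` -/
def Above (S : Finset (Fin n)) (v : Fin n) : Prop := ∀ u ∈ S, u < v

instance (v : Fin n) : Decidable (Above S v) := by unfold Above; infer_instance

/-- the bit as an element of the field -/
def bit (β : Bool) : K := if β then 1 else 0

/-- the matrix of the pair `e`: states `0` (no last vertex chosen), `1` (last vertex being tested),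
`2` (last vertex found) -/
def cm (e : Sym2 (Fin n)) (β : Bool) : Matrix (Fin 3) (Fin 3) K :=
  if e.inf = e.sup then !![1, if Above S e.sup then y e.sup else 0, 0; 0, 0, 1; 0, 0, 1]
  else if e.inf ∈ S ∧ e.sup ∈ S then diagonal fun _ => bit β
  else if e.inf ∈ S ∧ Above S e.sup then diagonal ![1, bit β, 1]
  else 1

/-- the product of the bits of the pairs `uv`, `u ∈ S`, `u < v` -/
def bp (x : Sym2 (Fin n) → Bool) (v : Fin n) : K :=
  ∏ u ∈ S.filter (fun u => u < v), bit (x s(u, v))

theorem edges_step (x : Sym2 (Fin n) → Bool) (v : Fin n) (us : List (Fin n))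
    (hus : ∀ u ∈ us, u < v) (r : Fin 3 → K) :
    r ᵥ* ((us.map fun u => s(u, v)).map fun e => cm y S e (x e)).prod =
      if v ∈ S then fun i => (us.map fun u => if u ∈ S then bit (x s(u, v)) else (1 : K)).prod * r i
      else if Above S v then
        ![r 0, (us.map fun u => if u ∈ S then bit (x s(u, v)) else (1 : K)).prod * r 1, r 2]
      else r := by
  induction us generalizing r with
  | nil =>
    simp only [List.map_nil, List.prod_nil, vecMul_one, one_mul]
    split_ifs
    · rfl
    · funext i; fin_cases i <;> rfl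
    · rfl
  | cons u us ih =>
    have huv : u < v := hus u List.mem_cons_self
    have hus' : ∀ u ∈ us, u < v := fun u hu => hus u (List.mem_cons_of_mem _ hu)
    rw [List.map_cons, List.map_cons, List.prod_cons, ← vecMul_vecMul, ih hus']
    have hinf : (s(u, v) : Sym2 (Fin n)).inf = u := by simp [huv.le]
    have hsup : (s(u, v) : Sym2 (Fin n)).sup = v := by simp [huv.le]
    have hcm : cm y S s(u, v) (x s(u, v)) =
        if u ∈ S ∧ v ∈ S then diagonal fun _ => bit (x s(u, v))
        else if u ∈ S ∧ Above S v then diagonal ![1, bit (x s(u, v)), 1]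
        else 1 := by
      unfold cm
      rw [hinf, hsup, if_neg huv.ne]
    rw [hcm, List.map_cons, List.prod_cons]
    by_cases hu : u ∈ S
    · by_cases hv : v ∈ S
      · simp only [hu, hv, and_self, if_true]
        funext i
        rw [vecMul_diagonal]
        ring
      · by_cases ha : Above S v
        · simp only [hu, hv, ha, and_false, and_self, if_true, if_false]
          funext i
          fin_cases i
          · simp [vecMul_diagonal]
          · simp [vecMul_diagonal]; ring
          · simp [vecMul_diagonal]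
        · simp [hu, hv, ha]
    · simp [hu]

theorem list_prod_eq (x : Sym2 (Fin n) → Bool) (v : Fin n) :
    ((((List.finRange n).filter fun u => decide (u < v)).map
      fun u => if u ∈ S then bit (x s(u, v)) else (1 : K)).prod) = bp S x v := by
  unfold bp
  have h1 : ((List.finRange n).filter fun u => decide (u < v)).Nodup :=
    (List.nodup_finRange n).filter _
  rw [← List.prod_toFinset _ h1, ← Finset.prod_filter]
  congr 1
  ext u
  simp [and_comm]

/-- the effect of a block on a state -/
theorem block_step (x : Sym2 (Fin n) → Bool) (v : Fin n) (r : Fin 3 → K) :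
    r ᵥ* ((blockList n v).map fun e => cm y S e (x e)).prod =
      if v ∈ S then ![bp S x v * r 0, 0, bp S x v * (r 1 + r 2)]
      else if Above S v then ![r 0, bp S x v * (y v * r 0), r 1 + r 2]
      else ![r 0, 0, r 1 + r 2] := by
  unfold blockList
  rw [List.map_cons, List.prod_cons, ← vecMul_vecMul, edges_step y S x v _ (by
    intro u hu
    exact of_decide_eq_true (List.mem_filter.1 hu).2), list_prod_eq]
  have hcm : cm y S s(v, v) (x s(v, v)) =
      !![1, if Above S v then y v else 0, 0; 0, 0, 1; 0, 0, 1] := by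
    unfold cm
    simp
  rw [hcm]
  have hr : r ᵥ* !![1, if Above S v then y v else 0, 0; 0, 0, 1; 0, 0, 1] =
      ![r 0, (if Above S v then y v else 0) * r 0, r 1 + r 2] := by
    funext i
    simp only [vecMul, dotProduct, Fin.sum_univ_three]
    fin_cases i <;> simp [mul_comm]
  rw [hr]
  by_cases hv : v ∈ S
  · have ha : ¬ Above S v := fun h => lt_irrefl _ (h v hv)
    simp only [hv, ha, if_true, if_false]
    funext i
    fin_cases i <;> simp
  · by_cases ha : Above S v
    · simp only [hv, ha, if_true, if_false]
      funext i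
      fin_cases i <;> simp
    · simp [hv, ha]

/-- the state after some blocks -/
theorem blocks_state (x : Sym2 (Fin n) → Bool) (vs : List (Fin n)) :
    ∃ a₁ a₂ : K, (![1, 0, 0] : Fin 3 → K) ᵥ* ((vs.flatMap (blockList n)).map
        fun e => cm y S e (x e)).prod =
      ![(vs.map fun v => if v ∈ S then bp S x v else 1).prod, a₁, a₂] ∧
      a₁ + a₂ = (vs.map fun v => if v ∈ S then bp S x v else 1).prod *
        (vs.map fun v => if Above S v then y v * bp S x v else 0).sum := by
  induction vs using List.reverseRecOn with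
  | nil => exact ⟨0, 0, by simp, by simp⟩
  | append_singleton vs v ih =>
    obtain ⟨a₁, a₂, h1, h2⟩ := ih
    rw [List.flatMap_append, List.map_append, List.prod_append, ← vecMul_vecMul, h1]
    have h3 : (([v] : List (Fin n)).flatMap (blockList n)) = blockList n v := by simp
    rw [h3, block_step]
    set C := (vs.map fun v => if v ∈ S then bp S x v else (1 : K)).prod with hC
    set T := (vs.map fun v => if Above S v then y v * bp S x v else (0 : K)).sum with hT
    have hC' : (((vs ++ [v]).map fun v => if v ∈ S then bp S x v else (1 : K)).prod) =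
        C * (if v ∈ S then bp S x v else 1) := by simp [hC]
    have hT' : (((vs ++ [v]).map fun v => if Above S v then y v * bp S x v else (0 : K)).sum) =
        T + (if Above S v then y v * bp S x v else 0) := by simp [hT]
    rw [hC', hT']
    by_cases hv : v ∈ S
    · have ha : ¬ Above S v := fun h => lt_irrefl _ (h v hv)
      simp only [hv, ha, if_true, if_false]
      refine ⟨0, bp S x v * (a₁ + a₂), ?_, ?_⟩
      · funext i
        fin_cases i
        · simp [mul_comm]
        · simp
        · simp
      · rw [h2]; ring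
    · by_cases ha : Above S v
      · simp only [hv, ha, if_true, if_false]
        refine ⟨bp S x v * (y v * C), a₁ + a₂, ?_, ?_⟩
        · funext i
          fin_cases i <;> simp
        · rw [h2]; ring
      · simp only [hv, ha, if_false]
        refine ⟨0, a₁ + a₂, ?_, ?_⟩
        · funext i
          fin_cases i <;> simp
        · rw [h2]; ring

/-- the pair `(S, v)` is a clique with largest element `v` -/
def IsTop (G : SimpleGraph (Fin n)) (S : Finset (Fin n)) (v : Fin n) : Prop :=
  Above S v ∧ G.IsClique (insert v S : Finset (Fin n))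

open Classical in
theorem clique_prod (G : SimpleGraph (Fin n)) (v : Fin n) (hv : Above S v) :
    (∏ u ∈ S, bp S (fun e => decide (e ∈ G.edgeSet)) u) *
      bp S (fun e => decide (e ∈ G.edgeSet)) v =
      (if G.IsClique (insert v S : Finset (Fin n)) then 1 else 0 : K) := by
  have hfil : S.filter (fun u => u < v) = S := by
    apply Finset.filter_true_of_mem
    intro u hu
    exact hv u hu
  have hbit : ∀ e : Sym2 (Fin n), (bit (decide (e ∈ G.edgeSet)) : K) =
      if e ∈ G.edgeSet then 1 else 0 := by
    intro e
    unfold bit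
    by_cases h : e ∈ G.edgeSet <;> simp [h]
  by_cases hc : G.IsClique (insert v S : Finset (Fin n))
  · rw [if_pos hc]
    have h1 : ∀ u ∈ S, ∀ w ∈ S, w < u → s(w, u) ∈ G.edgeSet := by
      intro u hu w hw hwu
      rw [SimpleGraph.mem_edgeSet]
      exact hc (by simp [hw]) (by simp [hu]) hwu.ne
    have h2 : ∀ u ∈ S, s(u, v) ∈ G.edgeSet := by
      intro u hu
      rw [SimpleGraph.mem_edgeSet]
      exact hc (by simp [hu]) (by simp) (hv u hu).ne
    rw [Finset.prod_eq_one, one_mul]
    · unfold bp
      apply Finset.prod_eq_one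
      intro u hu
      rw [hbit, if_pos (h2 u (Finset.mem_filter.1 hu).1)]
    · intro u hu
      unfold bp
      apply Finset.prod_eq_one
      intro w hw
      rw [hbit, if_pos (h1 u hu w (Finset.mem_filter.1 hw).1 (Finset.mem_filter.1 hw).2)]
  · rw [if_neg hc]
    -- a missing edge
    have h1 : ∃ a ∈ insert v S, ∃ b ∈ insert v S, a < b ∧ ¬ G.Adj a b := by
      by_contra hcon
      push Not at hcon
      apply hc
      intro a ha b hb hab
      rw [Finset.mem_coe] at ha hb
      rcases lt_or_gt_of_ne hab with h | h
      · exact hcon a ha b hb h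
      · exact (hcon b hb a ha h).symm
    obtain ⟨a, ha, b, hb, hab, hnadj⟩ := h1
    have haS : a ∈ S := by
      rcases Finset.mem_insert.1 ha with rfl | h
      · rcases Finset.mem_insert.1 hb with rfl | h'
        · exact absurd hab (lt_irrefl _)
        · exact absurd (hv b h') (not_lt.2 hab.le)
      · exact h
    have hne : s(a, b) ∉ G.edgeSet := by rwa [SimpleGraph.mem_edgeSet]
    have hbp : bp S (fun e => decide (e ∈ G.edgeSet)) b = (0 : K) := by
      unfold bp
      apply Finset.prod_eq_zero (Finset.mem_filter.2 ⟨haS, hab⟩)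
      rw [hbit, if_neg hne]
    rcases Finset.mem_insert.1 hb with rfl | hbS
    · rw [hbp, mul_zero]
    · rw [Finset.prod_eq_zero hbS hbp, zero_mul]

open Classical in
/-- the value for a fixed `S` -/
theorem value_S (G : SimpleGraph (Fin n)) :
    ((![1, 0, 0] : Fin 3 → K) ᵥ* ((ord n).map
        fun e => cm y S e (decide (e ∈ G.edgeSet))).prod) ⬝ᵥ ![0, 1, 1] =
      ∑ v, if IsTop G S v then y v else 0 := by
  obtain ⟨a₁, a₂, h1, h2⟩ := blocks_state y S (fun e => decide (e ∈ G.edgeSet)) (List.finRange n)
  have h0 : (![1, 0, 0] : Fin 3 → K) ᵥ* ((ord n).map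
        fun e => cm y S e (decide (e ∈ G.edgeSet))).prod =
      ![((List.finRange n).map fun v => if v ∈ S then
        bp S (fun e => decide (e ∈ G.edgeSet)) v else 1).prod, a₁, a₂] := h1
  rw [h0]
  have h3 : (![((List.finRange n).map fun v => if v ∈ S then
        bp S (fun e => decide (e ∈ G.edgeSet)) v else 1).prod, a₁, a₂] : Fin 3 → K) ⬝ᵥ ![0, 1, 1] =
      a₁ + a₂ := by
    simp [dotProduct, Fin.sum_univ_three]
  rw [h3, h2]
  have h4 : ((List.finRange n).map fun v => if v ∈ S then
      bp S (fun e => decide (e ∈ G.edgeSet)) v else (1 : K)).prod =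
        ∏ u ∈ S, bp S (fun e => decide (e ∈ G.edgeSet)) u := by
    rw [← List.prod_toFinset _ (List.nodup_finRange n), List.toFinset_finRange,
      ← Finset.prod_filter]
    congr 1
    ext u
    simp
  have h5 : ((List.finRange n).map fun v => if Above S v then
      y v * bp S (fun e => decide (e ∈ G.edgeSet)) v else (0 : K)).sum =
        ∑ v, if Above S v then y v * bp S (fun e => decide (e ∈ G.edgeSet)) v else 0 := by
    rw [← List.sum_toFinset _ (List.nodup_finRange n), List.toFinset_finRange]
  rw [h4, h5, Finset.mul_sum]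
  apply Finset.sum_congr rfl
  intro v _
  by_cases ha : Above S v
  · rw [if_pos ha]
    have h6 := clique_prod (K := K) S G v ha
    calc _ = y v * ((∏ u ∈ S, bp S (fun e => decide (e ∈ G.edgeSet)) u) *
          bp S (fun e => decide (e ∈ G.edgeSet)) v) := by ring
      _ = _ := by
        rw [h6]
        unfold IsTop
        by_cases hc : G.IsClique (insert v S : Finset (Fin n)) <;> simp [ha]
  · rw [if_neg ha, mul_zero]
    unfold IsTop
    simp [ha]

end upper

/-! ### The program -/

section program

variable {K : Type*} [Field K] (n k : ℕ)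

/-- the index set -/
abbrev Idx (n k : ℕ) : Type := {S : Finset (Fin n) // S.card = k - 1}

theorem card_Idx : Fintype.card (Fin 3 × Idx n k) = 3 * n.choose (k - 1) := by
  rw [Fintype.card_prod, Fintype.card_fin, Fintype.card_finset_len, Fintype.card_fin]

/-- numbering of the states -/
noncomputable def numC : Fin 3 × Idx n k ≃ Fin (3 * n.choose (k - 1)) :=
  Fintype.equivFinOfCardEq (card_Idx n k)

theorem list_blockDiagonal {ι o : Type*} [Fintype o] [DecidableEq o]
    (M : ι → o → Matrix (Fin 3) (Fin 3) K) (L : List ι) :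
    (L.map fun a => blockDiagonal (M a)).prod = blockDiagonal fun S => (L.map fun a => M a S).prod := by
  induction L with
  | nil =>
    simp only [List.map_nil, List.prod_nil]
    exact (blockDiagonal_one).symm
  | cons a L ih =>
    rw [List.map_cons, List.prod_cons, ih, ← blockDiagonal_mul]
    rfl

theorem list_submatrix {S : Type*} [Fintype S] [DecidableEq S] {w : ℕ} (f : S ≃ Fin w)
    {ι : Type*} (M : ι → Matrix S S K) (L : List ι) :
    (L.map fun a => (M a).submatrix f.symm f.symm).prod =
      ((L.map M).prod).submatrix f.symm f.symm := by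
  induction L with
  | nil => simp
  | cons a L ih =>
    rw [List.map_cons, List.prod_cons, ih, List.map_cons, List.prod_cons]
    rw [Matrix.submatrix_mul_equiv]

/-- the program which looks for a set `S` with `k - 1` elements and a larger vertex -/
noncomputable def cliqueProg (y : Fin n → K) (z : Finset (Fin n) → K) :
    LinProg K (Sym2 (Fin n)) (3 * n.choose (k - 1)) where
  order := ord n
  nodup := ord_nodup n
  src := fun i => z ((numC n k).symm i).2.1 * (![1, 0, 0] : Fin 3 → K) ((numC n k).symm i).1
  mat := fun e β => (blockDiagonal fun S : Idx n k => cm y S.1 e β).submatrix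
    (numC n k).symm (numC n k).symm
  snk := fun i => (![0, 1, 1] : Fin 3 → K) ((numC n k).symm i).1

open Classical in
theorem value_cliqueProg (y : Fin n → K) (z : Finset (Fin n) → K) (G : SimpleGraph (Fin n)) :
    (cliqueProg n k y z).value (fun e => decide (e ∈ G.edgeSet)) =
      ∑ S : Idx n k, ∑ v, if IsTop G S.1 v then z S.1 * y v else 0 := by
  unfold LinProg.value
  have h1 : ((cliqueProg n k y z).order.map fun e =>
      (cliqueProg n k y z).mat e (decide (e ∈ G.edgeSet))).prod =
      (blockDiagonal fun S : Idx n k =>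
        ((ord n).map fun e => cm y S.1 e (decide (e ∈ G.edgeSet))).prod).submatrix
          (numC n k).symm (numC n k).symm := by
    rw [← list_blockDiagonal]
    exact list_submatrix (numC n k) _ _
  rw [h1, ← dotProduct_mulVec]
  set D : Idx n k → Matrix (Fin 3) (Fin 3) K := fun S =>
    ((ord n).map fun e => cm y S.1 e (decide (e ∈ G.edgeSet))).prod with hD
  have h2 : ((blockDiagonal D).submatrix (numC n k).symm (numC n k).symm) *ᵥ
      (cliqueProg n k y z).snk = fun i => ((blockDiagonal D) *ᵥ
        (fun p : Fin 3 × Idx n k => (![0, 1, 1] : Fin 3 → K) p.1)) ((numC n k).symm i) := by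
    funext i
    show ∑ j, (blockDiagonal D) ((numC n k).symm i) ((numC n k).symm j) *
      (![0, 1, 1] : Fin 3 → K) ((numC n k).symm j).1 = _
    exact Equiv.sum_comp (numC n k).symm (fun t => (blockDiagonal D) ((numC n k).symm i) t *
      (![0, 1, 1] : Fin 3 → K) t.1)
  rw [h2]
  show ∑ i, (z ((numC n k).symm i).2.1 * (![1, 0, 0] : Fin 3 → K) ((numC n k).symm i).1) *
    ((blockDiagonal D) *ᵥ (fun p : Fin 3 × Idx n k => (![0, 1, 1] : Fin 3 → K) p.1))
      ((numC n k).symm i) = _
  rw [Equiv.sum_comp (numC n k).symm (fun s => (z s.2.1 * (![1, 0, 0] : Fin 3 → K) s.1) *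
    ((blockDiagonal D) *ᵥ (fun p : Fin 3 × Idx n k => (![0, 1, 1] : Fin 3 → K) p.1)) s),
    Fintype.sum_prod_type_right]
  apply Finset.sum_congr rfl
  intro S _
  have h3 : ∀ i : Fin 3, ((blockDiagonal D) *ᵥ
      (fun p : Fin 3 × Idx n k => (![0, 1, 1] : Fin 3 → K) p.1)) (i, S) =
      (D S *ᵥ ![0, 1, 1]) i := by
    intro i
    show ∑ p : Fin 3 × Idx n k, (blockDiagonal D) (i, S) p * (![0, 1, 1] : Fin 3 → K) p.1 = _
    rw [Fintype.sum_prod_type]
    show ∑ j, ∑ S', (blockDiagonal D) (i, S) (j, S') * (![0, 1, 1] : Fin 3 → K) j =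
      ∑ j, D S i j * (![0, 1, 1] : Fin 3 → K) j
    apply Finset.sum_congr rfl
    intro j _
    rw [Finset.sum_eq_single S]
    · rw [blockDiagonal_apply_eq]
    · intro S' _ hne
      rw [blockDiagonal_apply_ne _ _ _ (Ne.symm hne), zero_mul]
    · intro h; exact absurd (Finset.mem_univ _) h
  have h4 : ∑ i : Fin 3, (z S.1 * (![1, 0, 0] : Fin 3 → K) i) *
      ((blockDiagonal D) *ᵥ (fun p : Fin 3 × Idx n k => (![0, 1, 1] : Fin 3 → K) p.1)) (i, S) =
      z S.1 * (((![1, 0, 0] : Fin 3 → K) ᵥ* D S) ⬝ᵥ ![0, 1, 1]) := by
    rw [← dotProduct_mulVec]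
    simp only [h3]
    unfold dotProduct
    rw [Finset.mul_sum]
    apply Finset.sum_congr rfl
    intro i _
    ring
  rw [h4, hD, value_S, Finset.mul_sum]
  apply Finset.sum_congr rfl
  intro v _
  split_ifs <;> simp

/-- Generic weights: no sum of distinct products `z S * y v` vanishes. -/
theorem exists_weights [Infinite K] : ∃ (y : Fin n → K) (z : Finset (Fin n) → K),
    ∀ Q : Finset (Finset (Fin n) × Fin n), Q.Nonempty → ∑ p ∈ Q, z p.1 * y p.2 ≠ 0 := by
  classical
  let e : Finset (Fin n) × Fin n ≃ Fin (Fintype.card (Finset (Fin n) × Fin n)) :=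
    Fintype.equivFin _
  let es : Finset (Fin n) ≃ Fin (Fintype.card (Finset (Fin n))) := Fintype.equivFin _
  let ex : Finset (Fin n) × Fin n → ℕ := fun p => n * (es p.1 : ℕ) + (p.2 : ℕ)
  have hex : Function.Injective ex := by
    rintro ⟨S, v⟩ ⟨S', v'⟩ h
    have h' : n * (es S : ℕ) + (v : ℕ) = n * (es S' : ℕ) + (v' : ℕ) := h
    have hv := v.2
    have hv' := v'.2
    have h1 : (es S : ℕ) = es S' := by
      have e1 := Nat.mul_add_div (show 0 < n by omega) (es S : ℕ) (v : ℕ)
      have e2 := Nat.mul_add_div (show 0 < n by omega) (es S' : ℕ) (v' : ℕ)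
      rw [Nat.div_eq_of_lt hv] at e1
      rw [Nat.div_eq_of_lt hv'] at e2
      rw [h'] at e1
      omega
    have h2 : (v : ℕ) = v' := by rw [h1] at h'; omega
    exact Prod.ext (es.injective (Fin.ext h1)) (Fin.ext h2)
  let pol : Finset (Finset (Fin n) × Fin n) → Polynomial K := fun Q =>
    ∑ p ∈ Q, (Polynomial.X : Polynomial K) ^ ex p
  have hpol : ∀ Q, Q.Nonempty → pol Q ≠ 0 := by
    intro Q ⟨p₀, hp₀⟩ h0
    have h1 := congrArg (fun f : Polynomial K => f.coeff (ex p₀)) h0
    simp only [pol, Polynomial.finsetSum_coeff, Polynomial.coeff_X_pow, Polynomial.coeff_zero]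
      at h1
    rw [Finset.sum_eq_single p₀] at h1
    · simp at h1
    · intro p _ hne
      rw [if_neg]
      intro h
      exact hne (hex h.symm)
    · intro h; exact absurd hp₀ h
  have hprod : (∏ Q ∈ (univ : Finset (Finset (Finset (Fin n) × Fin n))).filter
      (fun Q => Q.Nonempty), pol Q) ≠ 0 := by
    rw [Finset.prod_ne_zero_iff]
    intro Q hQ
    exact hpol Q (Finset.mem_filter.1 hQ).2
  obtain ⟨t, ht⟩ : ∃ t, (∏ Q ∈ (univ : Finset (Finset (Finset (Fin n) × Fin n))).filter
      (fun Q => Q.Nonempty), pol Q).eval t ≠ 0 := by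
    by_contra hcon
    push Not at hcon
    apply hprod
    apply Polynomial.funext
    intro r
    rw [hcon r, Polynomial.eval_zero]
  refine ⟨fun v => t ^ (v : ℕ), fun S => t ^ (n * (es S : ℕ)), fun Q hQ h0 => ht ?_⟩
  rw [Polynomial.eval_prod]
  apply Finset.prod_eq_zero (i := Q)
  · exact Finset.mem_filter.2 ⟨Finset.mem_univ _, hQ⟩
  · rw [Polynomial.eval_finsetSum, ← h0]
    apply Finset.sum_congr rfl
    intro p _
    rw [Polynomial.eval_pow, Polynomial.eval_X, ← pow_add]

open Classical in
theorem exists_cliqueProg [Infinite K] (hk : 1 ≤ k) :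
    ∃ P : LinProg K (Sym2 (Fin n)) (3 * n.choose (k - 1)), P.DecidesClique k := by
  obtain ⟨y, z, hyz⟩ := exists_weights (K := K) n
  refine ⟨cliqueProg n k y z, fun G => ?_⟩
  rw [value_cliqueProg]
  set Q : Finset (Finset (Fin n) × Fin n) :=
    univ.filter fun p => p.1.card = k - 1 ∧ IsTop G p.1 p.2 with hQ
  have h1 : ∑ S : Idx n k, ∑ v, (if IsTop G S.1 v then z S.1 * y v else 0) =
      ∑ p ∈ Q, z p.1 * y p.2 := by
    rw [hQ, Finset.sum_filter, Fintype.sum_prod_type]
    have h2 : ∀ S : Finset (Fin n), ∑ v, (if S.card = k - 1 ∧ IsTop G S v then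
        z S * y v else 0) = if S.card = k - 1 then
          ∑ v, (if IsTop G S v then z S * y v else 0) else 0 := by
      intro S
      by_cases h : S.card = k - 1
      · simp [h]
      · simp [h]
    simp only [h2]
    rw [← Finset.sum_filter]
    exact (Finset.sum_subtype (univ.filter fun S : Finset (Fin n) => S.card = k - 1)
      (p := fun S => S.card = k - 1) (by simp)
      (fun S => ∑ v, (if IsTop G S v then z S * y v else 0))).symm
  rw [h1]
  have h3 : (∑ p ∈ Q, z p.1 * y p.2 ≠ 0) ↔ Q.Nonempty := by
    constructor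
    · intro h
      by_contra hcon
      rw [Finset.not_nonempty_iff_eq_empty] at hcon
      rw [hcon] at h
      simp at h
    · exact hyz Q
  rw [h3]
  unfold SimpleGraph.CliqueFree
  push Not
  constructor
  · rintro ⟨⟨S, v⟩, hp⟩
    rw [hQ, Finset.mem_filter] at hp
    obtain ⟨_, hS, ha, hc⟩ := hp
    refine ⟨insert v S, hc, ?_⟩
    have hv : v ∉ S := fun h => lt_irrefl _ (ha v h)
    rw [Finset.card_insert_of_notMem hv]
    simp only at hS
    omega
  · rintro ⟨T, hT⟩
    have hne : T.Nonempty := by
      rw [← Finset.card_pos, hT.2]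
      omega
    refine ⟨(T.erase (T.max' hne), T.max' hne), ?_⟩
    rw [hQ, Finset.mem_filter]
    refine ⟨Finset.mem_univ _, ?_, ?_, ?_⟩
    · show (T.erase (T.max' hne)).card = k - 1
      rw [Finset.card_erase_of_mem (T.max'_mem hne), hT.2]
    · intro u hu
      obtain ⟨hu1, hu2⟩ := Finset.mem_erase.1 hu
      exact lt_of_le_of_ne (T.le_max' u hu2) hu1
    · show G.IsClique (insert (T.max' hne) (T.erase (T.max' hne)) : Finset (Fin n))
      rw [Finset.insert_erase (T.max'_mem hne)]
      exact hT.1

end program

end Pool.Agent.Lib.MP_678664_lc_ReadOnce
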